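import Mathlib

/-!
# Smooth subvarieties of projective space
-/

set_option autoImplicit false

noncomputable section

namespace Pool.Agent.GFR

open MvPolynomial

/-- The homogeneous ideal `I` defines a smooth closed subscheme of dimension `d` of the projective
space of dimension `N` over the field `K` (Jacobian criterion): `I` is prime and remains prime over
all extensions of `K`, the quotient has dimension `d + 1` and at each zero `x ≠ 0` of `I` with
coordinates in an extension `L` of `K` there are `N - d` elements of `I` with linearly independent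
gradients. -/
structure SmoothVar {K : Type} [Field K] {N : ℕ} (d : ℕ)
    (I : Ideal (MvPolynomial (Fin (N + 1)) K)) : Prop where
  prime : ∀ (L : Type) [Field L] (φ : K →+* L), (I.map (MvPolynomial.map φ)).IsPrime
  hom : ∀ F ∈ I, ∀ m, homogeneousComponent m F ∈ I
  dim : ringKrullDim (MvPolynomial (Fin (N + 1)) K ⧸ I) = (d + 1 : ℕ)
  smooth : ∀ (L : Type) [Field L] (φ : K →+* L) (x : Fin (N + 1) → L), x ≠ 0 →
    (∀ F ∈ I, eval₂ φ x F = 0) →
    ∃ G : Fin (N - d) → MvPolynomial (Fin (N + 1)) K, (∀ i, G i ∈ I) ∧
      LinearIndependent L fun i (l : Fin (N + 1)) => eval₂ φ x (pderiv l (G i))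

end Pool.Agent.GFR
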