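import Pool.Agent.FRM.Stmts
import Pool.Agent.DIS.Interface
import Pool.Agent.GFR.Smooth

/-!
# GFR: the frame over all perfectoid fields of characteristic zero
-/

set_option autoImplicit false

noncomputable section

namespace Pool.Agent.GFR

open scoped Classical
open MvPolynomial Pool.Agent.LibDb3ab1 Pool.Agent.DC Pool.Agent.FRM

/-- EXC: a complete algebraically closed extension. -/
def Stmt_Exc : Prop :=
  ∀ (p : ℕ) [Fact p.Prime] (K : Type) [Field K] [CharZero K] (O : ValuationSubring K)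
    [Fact ¬IsUnit (p : O)] [IsAdicComplete (Ideal.span {(p : O)}) O],
    (∀ x : O, ¬IsUnit x → ∃ k : ℕ, (p : O) ∣ x ^ k) →
    ∃ (C : Type) (_ : Field C) (_ : IsAlgClosed C) (ι : K →+* C) (V : ValuationSubring C)
      (_ : ValuedExt O ι V) (_ : Fact ¬IsUnit (p : V)),
      IsAdicComplete (Ideal.span {(p : V)}) V ∧ ∀ x : V, ¬IsUnit x → ∃ k : ℕ, (p : V) ∣ x ^ k

/-- PIV: the element `(p, p^(1/p), p^(1/p^2), …)` of the tilt. -/
def Stmt_Piv : Prop :=
  ∀ (p : ℕ) [Fact p.Prime] (C : Type) [Field C] [IsAlgClosed C] [CharZero C]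
    (V : ValuationSubring C) [Fact ¬IsUnit (p : V)] [IsAdicComplete (Ideal.span {(p : V)}) V],
    ∃ ϖ : PreTilt V p, PreTilt.untilt ϖ = (p : V)

/-- SPB: specialisation of finitely many elements of a valued field of characteristic `p` to an
algebraic closure of `F_p(t)`. -/
def Stmt_Spb : Prop :=
  ∀ (p : ℕ) [Fact p.Prime] (Ω : Type) [Field Ω] [IsAlgClosed Ω] [CharP Ω p]
    (W : ValuationSubring Ω) (t : W), t ≠ 0 → ¬IsUnit t → ∀ (S₁ : Finset W) (S₂ : Finset Ω),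
    ∃ (D : Subring Ω) (L : Type) (_ : Field L) (σ : D →+* L) (ka : Type) (_ : Field ka)
      (_ : IsAlgClosed ka) (_ : CharP ka p) (j : L →+* ka) (V : ValuationSubring ka)
      (D₁ : Subring W) (σ₁ : D₁ →+* V) (hD : ∀ a : D₁, ((a : W) : Ω) ∈ D) (ht : t ∈ D₁),
      Function.Surjective σ ∧ (∀ a ∈ S₁, a ∈ D₁) ∧
      (∀ a ∈ S₂, a ∈ D) ∧ (∀ a : D₁, ((σ₁ a : V) : ka) = j (σ ⟨_, hD a⟩)) ∧
      σ₁ ⟨t, ht⟩ ≠ 0 ∧ ¬IsUnit (σ₁ ⟨t, ht⟩) ∧ ∀ x : ka, AlgT p ((σ₁ ⟨t, ht⟩ : V) : ka) x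

/-- GEN: from a close ideal over an algebraically closed valued field to a close model (uses SPB,
DSC, MINP). -/
def Stmt_Gen : Prop :=
  ∀ (p N d : ℕ) [Fact p.Prime] (J : Type) [Finite J] (E : Eqs p N J) (Ω : Type) [Field Ω]
    [IsAlgClosed Ω] [CharP Ω p] (W : ValuationSubring Ω) (t : W)
    (P : Ideal (MvPolynomial (Fin (N + 1)) Ω))
    (z : Fin (d + 1) → MvPolynomial (Fin (N + 1)) W), IsClose E d W t P z →
    Nonempty (CloseModel E d)

/-- SMK: the variety `X` over every field of characteristic zero. -/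
def Stmt_Smk : Prop :=
  ∀ (K : Type) [Field K] [CharZero K], SmoothVar 3 (XV.I K)

/-- The frame over the perfectoid field `K` (of mixed characteristic). -/
def Stmt_FrameK : Prop :=
  ∀ (p N d : ℕ) [Fact p.Prime] (J : Type) [Finite J] (E : Eqs p N J),
    ringKrullDim (MvPolynomial (Fin (N + 1)) (ZMod p) ⧸
      Ideal.span (Set.range fun j => red (ZMod p) (E.g j))) ≤ (d + 1 : ℕ) →
    IsEmpty (CloseModel E d) →
    ∀ (K : Type) [Field K] [CharZero K] (O : ValuationSubring K) [Fact ¬IsUnit (p : O)]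
      [IsAdicComplete (Ideal.span {(p : O)}) O], (∀ x : O, ¬IsUnit x → ∃ k : ℕ, (p : O) ∣ x ^ k) →
    ∀ I : Ideal (MvPolynomial (Fin (N + 1)) K), (∀ j, red K (E.g j) ∈ I) →
    ∃ U : Set (AdicProj O N), IsOpen U ∧ adicLocus O I ⊆ U ∧
      ∀ 𝔓 : Ideal (MvPolynomial (Fin (N + 1)) (FractionRing (PreTilt O p))), Homog 𝔓 →
        ringKrullDim (MvPolynomial (Fin (N + 1)) (FractionRing (PreTilt O p)) ⧸ 𝔓) =
          (d + 1 : ℕ) → ¬TiltInside p O 𝔓 U

end Pool.Agent.GFR
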