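import Pool.Agent.GFR.Cpt
import Pool.Agent.GFR.Stmts
import Pool.Agent.FRM.All
import Pool.Agent.DC.MainG

/-!
# FRK: the frame over all perfectoid fields of characteristic zero, from its modules
-/

set_option autoImplicit false
set_option linter.unusedSectionVars false
set_option linter.style.haveILetI false

noncomputable section

namespace Pool.Agent.GFR

open scoped Classical
open MvPolynomial Pool.Agent.LibDb3ab1 Pool.Agent.DC Pool.Agent.FRM

/-- **The frame over a complete field of mixed characteristic.** -/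
theorem frameK_proof (hExc : Stmt_Exc) (hPiv : Stmt_Piv) (hGen : Stmt_Gen) : Stmt_FrameK := by
  intro p N d _ J _ E hdim hE K _ _ O _ _ hr I hI
  have hp0 : (p : K) ≠ 0 := by exact_mod_cast (Fact.out : p.Prime).ne_zero
  obtain ⟨U, hU, hIU, hmain⟩ := opu_proof p K O hp0 N J (fun j => red O (E.g j)) E.e I
    (fun j => (E.hom j).map _) (fun j => by
      have h1 : MvPolynomial.map O.subtype (red O (E.g j)) = red K (E.g j) := by
        rw [MvPolynomial.map_map, RingHom.ext_int (O.subtype.comp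
          (Int.castRingHom O)) (Int.castRingHom K)]
      rw [h1]
      exact hI j) 2
  refine ⟨U, hU, hIU, fun 𝔓 h𝔓 hd hT => ?_⟩
  obtain ⟨C, _, _, ι, V, hV, _, _, hrV⟩ := hExc p K O hr
  haveI : CharZero C := charZero_of_injective_ringHom ι.injective
  obtain ⟨ϖ, hϖ⟩ := hPiv p C V
  have hp0C : (p : C) ≠ 0 := by exact_mod_cast (Fact.out : p.Prime).ne_zero
  have hp0V : (p : V) ≠ 0 := by
    intro h
    apply hp0C
    have := congrArg V.subtype h
    rwa [map_natCast, map_zero] at this
  haveI : IsAlgClosed (TF V p) := tilt_isAlgClosed V isUnit_one hp0V (by rw [one_mul, hϖ])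
  haveI : CharP (TF V p) p :=
    charP_of_injective_algebraMap (IsFractionRing.injective (PreTilt V p) (TF V p)) p
  have hϖ0 : ϖ ≠ 0 := by
    rintro rfl
    rw [untilt_zero] at hϖ
    exact hp0V hϖ.symm
  have hϖu : ¬IsUnit ϖ := by
    intro h
    have h1 := h.map (PreTilt.untilt (O := V) (p := p))
    rw [hϖ] at h1
    exact (Fact.out : ¬IsUnit (p : V)) h1
  -- base change of the ideal
  have hP0h : Homog (𝔓.map (MvPolynomial.map (tf (p := p) hV))) := hom_map _ 𝔓 h𝔓
  have hP0d : ringKrullDim (MvPolynomial (Fin (N + 1)) (TF V p) ⧸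
      𝔓.map (MvPolynomial.map (tf (p := p) hV))) = (d + 1 : ℕ) := by
    rw [dimf_proof (TF O p) (TF V p) (tf (p := p) hV) (N + 1) 𝔓]
    exact hd
  obtain ⟨P, hle, hprime, hhom, hd'⟩ := minp_proof _ N d _ hP0h hP0d
  have hz : ∀ (y : Fin (N + 1) → PreTilt V p) (l : Fin (N + 1)), y l = 1 →
      (∀ F ∈ P, eval₂ (RingHom.id (TF V p)) (fun i => algebraMap (PreTilt V p) (TF V p) (y i)) F
        = 0) →
      ∀ j, ϖ ^ (p + 1) ∣ eval₂ (Int.castRingHom (PreTilt V p)) y (E.g j) ^ p +
        ϖ ^ p * eval₂ (Int.castRingHom (PreTilt V p)) y (E.g₁ j) := by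
    intro y l hl hy j
    have hy0 : y ≠ 0 := by
      rintro rfl
      exact zero_ne_one hl
    have hv : ∀ F : MvPolynomial (Fin (N + 1)) (PreTilt O p),
        MvPolynomial.map (algebraMap (PreTilt O p) (FractionRing (PreTilt O p))) F ∈ 𝔓 →
        eval₂ (tmap hV.incl) y F = 0 := by
      intro F hF
      apply IsFractionRing.injective (PreTilt V p) (TF V p)
      rw [map_zero, hom_eval₂]
      have h1 := hy _ (hle (Ideal.mem_map_of_mem _ hF))
      rw [eval₂_map, eval₂_map] at h1
      have h2 : ((RingHom.id (TF V p)).comp (tf (p := p) hV)).comp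
          (algebraMap (PreTilt O p) (FractionRing (PreTilt O p))) =
          (algebraMap (PreTilt V p) (TF V p)).comp (tmap hV.incl) := by
        ext x
        exact tf_algebraMap hV x
      rw [h2] at h1
      exact h1
    have h1 := hmain C ι V hV y hy0 (hT C ι V hV y hy0 hv) j
    have h2 : (p : V) ^ 2 ∣ eval₂ (Int.castRingHom V) (fun i => PreTilt.untilt (y i)) (E.g j) := by
      rw [eval₂_map, RingHom.ext_int (hV.incl.comp (Int.castRingHom O)) (Int.castRingHom V)] at h1
      exact h1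
    have h3 : (rt p 1 ϖ) ^ p = ϖ := by
      have := rt_pow 1 ϖ
      rwa [pow_one] at this
    have h4 := wit_proof V p (shp_proof V p) hp0C (rt p 1 ϖ) (by rw [← map_pow, h3, hϖ]) _ (E.g j)
      (E.g₁ j) (E.ghost j) y h2
    rwa [h3] at h4
  obtain ⟨V', t', z, -, hc⟩ := close_pts
    (linz_proof lza_proof lzb_proof lzc_proof lzd_proof lze_proof) fin64_proof
    (bdi_proof gau_proof) E hdim (RingHom.id (TF V p)) (algebraMap (PreTilt V p) (TF V p) ϖ) ϖ rfl
    hϖ0 hϖu P hprime hhom hd' hz
  obtain ⟨M⟩ := hGen p N d J E (TF V p) V' t' P z hc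
  exact hE.false M

/-- The frame over the perfectoid field `K` (of mixed characteristic), complete version. -/
def Stmt_FrameKC : Prop :=
  ∀ (p N d : ℕ) [Fact p.Prime] (J : Type) [Finite J] (E : Eqs p N J),
    ringKrullDim (MvPolynomial (Fin (N + 1)) (ZMod p) ⧸
      Ideal.span (Set.range fun j => red (ZMod p) (E.g j))) ≤ (d + 1 : ℕ) →
    IsEmpty (CompleteModel E d) →
    ∀ (K : Type) [Field K] [CharZero K] (O : ValuationSubring K) [Fact ¬IsUnit (p : O)]
      [IsAdicComplete (Ideal.span {(p : O)}) O], (∀ x : O, ¬IsUnit x → ∃ k : ℕ, (p : O) ∣ x ^ k) →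
    ∀ I : Ideal (MvPolynomial (Fin (N + 1)) K), (∀ j, red K (E.g j) ∈ I) →
    ∃ U : Set (AdicProj O N), IsOpen U ∧ adicLocus O I ⊆ U ∧
      ∀ 𝔓 : Ideal (MvPolynomial (Fin (N + 1)) (FractionRing (PreTilt O p))), Homog 𝔓 →
        ringKrullDim (MvPolynomial (Fin (N + 1)) (FractionRing (PreTilt O p)) ⧸ 𝔓) =
          (d + 1 : ℕ) → ¬TiltInside p O 𝔓 U

/-- **The frame over a complete field of mixed characteristic, complete version.** -/
theorem frameKC_proof (h : Stmt_FrameK) : Stmt_FrameKC := by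
  intro p N d _ J _ E hdim hE K _ _ O _ _ hr I hI
  refine h p N d J E hdim ⟨fun M => ?_⟩ K O hr I hI
  obtain ⟨M'⟩ := complete_of_close (gps_proof gpr_proof) bch_proof (cma_proof dvg_proof) cmb_proof M
  exact hE.false M'

end Pool.Agent.GFR
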