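import Pool.Agent.FRM.MINP
import Pool.Agent.FRM.FIN64

/-!
# GFR: specialisation of a homogeneous prime ideal along a local ring
-/

set_option autoImplicit false

noncomputable section

namespace Pool.Agent.GFR

open scoped Classical
open MvPolynomial Pool.Agent.LibDb3ab1 Pool.Agent.DC Pool.Agent.FRM

attribute [local instance] MvPolynomial.gradedAlgebra

/-- Integrality of the variables gives integrality. -/
theorem int_all {A B R : Type} {σ : Type} [CommRing A] [CommRing B] [CommRing R]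
    (q : MvPolynomial σ A →+* B) (f : R →+* B)
    (hC : ∀ a : A, f.IsIntegralElem (q (C a))) (hX : ∀ i, f.IsIntegralElem (q (X i)))
    (F : MvPolynomial σ A) : f.IsIntegralElem (q F) := by
  induction F using MvPolynomial.induction_on with
  | C a => exact hC a
  | add p r hp hr => rw [map_add]; exact hp.add f hr
  | mul_X p i hp => rw [map_mul]; exact hp.mul f (hX i)

theorem map_aev {A B : Type} [CommRing A] [CommRing B] (i : A →+* B) {N r : ℕ}
    (z : Fin r → MvPolynomial (Fin (N + 1)) A) (F : MvPolynomial (Fin r) A) :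
    MvPolynomial.map i (MvPolynomial.aeval z F) =
      MvPolynomial.aeval (fun l => MvPolynomial.map i (z l)) (MvPolynomial.map i F) := by
  induction F using MvPolynomial.induction_on with
  | C a => simp [MvPolynomial.algebraMap_eq]
  | add p q hp hq => rw [map_add, map_add, hp, hq, map_add, map_add]
  | mul_X p l hp =>
    rw [map_mul, map_mul, hp, map_mul, map_mul, MvPolynomial.aeval_X, MvPolynomial.map_X,
      MvPolynomial.aeval_X]

theorem hc_map {A B : Type} [CommRing A] [CommRing B] (f : A →+* B) {σ : Type} (m : ℕ)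
    (F : MvPolynomial σ A) :
    homogeneousComponent m (MvPolynomial.map f F) =
      MvPolynomial.map f (homogeneousComponent m F) := by
  ext d
  rw [coeff_homogeneousComponent, coeff_map, coeff_map, coeff_homogeneousComponent]
  split_ifs
  · rfl
  · rw [map_zero]

/-- Specialisation. -/
theorem gen_spec {k L A : Type} [Field k] [Field L] [CommRing A] (i : A →+* k)
    (hi : Function.Injective i) (σ : A →+* L) (hσ : Function.Surjective σ) {N r : ℕ}
    (P : Ideal (MvPolynomial (Fin (N + 1)) k)) (hP : P.IsPrime) (hPh : Homog P)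
    (z : Fin r → MvPolynomial (Fin (N + 1)) A)
    (hint : ∀ l, ∃ f : Polynomial (MvPolynomial (Fin r) A), f.Monic ∧
      MvPolynomial.map i (f.eval₂ (MvPolynomial.aeval z).toRingHom (X l)) ∈ P)
    (hinj : Function.Injective (kmap P fun l => MvPolynomial.map i (z l))) :
    ∃ P' : Ideal (MvPolynomial (Fin (N + 1)) L), P'.IsPrime ∧ Homog P' ∧
      (∀ F, MvPolynomial.map i F ∈ P → MvPolynomial.map σ F ∈ P') ∧
      Function.Injective (kmap P' fun l => MvPolynomial.map σ (z l)) := by
  -- the domain `R`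
  let P₀ : Ideal (MvPolynomial (Fin (N + 1)) A) := P.comap (MvPolynomial.map i)
  have hP₀ : P₀.IsPrime := Ideal.comap_isPrime _ _
  let h : MvPolynomial (Fin r) A →+* MvPolynomial (Fin (N + 1)) A ⧸ P₀ :=
    (Ideal.Quotient.mk P₀).comp (MvPolynomial.aeval z).toRingHom
  have hh : ∀ F, h F = Ideal.Quotient.mk P₀ (MvPolynomial.aeval z F) := fun _ => rfl
  have hhint : h.IsIntegral := by
    intro x
    obtain ⟨F, rfl⟩ := Ideal.Quotient.mk_surjective x
    refine int_all (Ideal.Quotient.mk P₀) h (fun a => ?_) (fun l => ?_) F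
    · have h1 : Ideal.Quotient.mk P₀ (C a) = h (C a) := by
        rw [hh, MvPolynomial.aeval_C]
        rfl
      rw [h1]
      exact h.isIntegralElem_map
    · obtain ⟨f, hf, hfl⟩ := hint l
      refine ⟨f, hf, ?_⟩
      have h1 : Ideal.Quotient.mk P₀ (f.eval₂ (MvPolynomial.aeval z).toRingHom (X l)) = 0 :=
        Ideal.Quotient.eq_zero_iff_mem.2 hfl
      rw [Polynomial.hom_eval₂] at h1
      exact h1
  have hhinj : Function.Injective h := by
    rw [injective_iff_map_eq_zero]
    intro F hF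
    rw [hh, Ideal.Quotient.eq_zero_iff_mem, Ideal.mem_comap, map_aev] at hF
    have h1 : kmap P (fun l => MvPolynomial.map i (z l)) (MvPolynomial.map i F) = 0 :=
      Ideal.Quotient.eq_zero_iff_mem.2 hF
    rw [map_eq_zero_iff _ hinj] at h1
    exact (map_eq_zero_iff _ (MvPolynomial.map_injective i hi)).1 h1
  -- lying over
  let 𝔮 : Ideal (MvPolynomial (Fin r) A) := RingHom.ker (MvPolynomial.map (σ := Fin r) σ)
  have h𝔮 : 𝔮.IsPrime := RingHom.ker_isPrime _
  obtain ⟨𝔔, h𝔔, h𝔔𝔮⟩ : ∃ 𝔔 : Ideal (MvPolynomial (Fin (N + 1)) A ⧸ P₀), 𝔔.IsPrime ∧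
      𝔔.comap h = 𝔮 := by
    let _ : Algebra (MvPolynomial (Fin r) A) (MvPolynomial (Fin (N + 1)) A ⧸ P₀) := h.toAlgebra
    have : Algebra.IsIntegral (MvPolynomial (Fin r) A) (MvPolynomial (Fin (N + 1)) A ⧸ P₀) :=
      ⟨hhint⟩
    refine Ideal.exists_ideal_over_prime_of_isIntegral_of_isDomain 𝔮 ?_
    have h1 : RingHom.ker (algebraMap (MvPolynomial (Fin r) A)
        (MvPolynomial (Fin (N + 1)) A ⧸ P₀)) = ⊥ := (RingHom.injective_iff_ker_eq_bot _).1 hhinj
    rw [h1]
    exact bot_le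
  let P₁ : Ideal (MvPolynomial (Fin (N + 1)) A) := 𝔔.comap (Ideal.Quotient.mk P₀)
  have hP₁ : P₁.IsPrime := Ideal.comap_isPrime _ _
  have hP₀₁ : P₀ ≤ P₁ := by
    intro F hF
    rw [Ideal.mem_comap, Ideal.Quotient.eq_zero_iff_mem.2 hF]
    exact 𝔔.zero_mem
  have hz₁ : ∀ F : MvPolynomial (Fin r) A, MvPolynomial.aeval z F ∈ P₁ ↔
      MvPolynomial.map σ F = 0 := by
    intro F
    rw [Ideal.mem_comap, ← hh, ← Ideal.mem_comap, h𝔔𝔮, RingHom.mem_ker]
  have hker : RingHom.ker (MvPolynomial.map (σ := Fin (N + 1)) σ) ≤ P₁ := by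
    rw [MvPolynomial.ker_map, Ideal.map_le_iff_le_comap]
    intro a ha
    rw [Ideal.mem_comap]
    have h1 : (C a : MvPolynomial (Fin (N + 1)) A) = MvPolynomial.aeval z (C a) := by
      rw [MvPolynomial.aeval_C]
      rfl
    rw [h1, hz₁, MvPolynomial.map_C, (RingHom.mem_ker).1 ha, C_0]
  have hsurj : Function.Surjective (MvPolynomial.map (σ := Fin (N + 1)) σ) :=
    MvPolynomial.map_surjective σ hσ
  let P₂ : Ideal (MvPolynomial (Fin (N + 1)) L) := P₁.map (MvPolynomial.map σ)
  have hP₂ : P₂.IsPrime := Ideal.map_isPrime_of_surjective hsurj hker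
  have hP₂₁ : ∀ F, MvPolynomial.map σ F ∈ P₂ → F ∈ P₁ := by
    intro F hF
    have h1 : F ∈ P₂.comap (MvPolynomial.map σ) := hF
    rw [Ideal.comap_map_of_surjective _ hsurj] at h1
    exact (sup_le le_rfl hker : P₁ ⊔ RingHom.ker (MvPolynomial.map σ) ≤ P₁) h1
  let P₃ := (P₂.homogeneousCore (MvPolynomial.homogeneousSubmodule (Fin (N + 1)) L)).toIdeal
  have hP₃₂ : P₃ ≤ P₂ := Ideal.toIdeal_homogeneousCore_le _ P₂
  have hP₃h : Homog P₃ := (MINP_.homog_iff P₃).2 (P₂.homogeneousCore _).isHomogeneous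
  refine ⟨P₃, hP₂.homogeneousCore, hP₃h, ?_, ?_⟩
  · intro F hF
    rw [← MvPolynomial.sum_homogeneousComponent F, map_sum]
    refine Ideal.sum_mem _ fun m _ => ?_
    refine Ideal.mem_homogeneousCore_of_homogeneous_of_mem ?_ ?_
    · exact ⟨m, (homogeneousComponent_isHomogeneous m F).map σ⟩
    · apply Ideal.mem_map_of_mem
      apply hP₀₁
      rw [Ideal.mem_comap]
      have h1 := hPh _ hF m
      rwa [hc_map] at h1
  · rw [injective_iff_map_eq_zero]
    intro F hF
    obtain ⟨G, rfl⟩ := MvPolynomial.map_surjective (σ := Fin r) σ hσ F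
    have h1 : MvPolynomial.aeval (fun l => MvPolynomial.map σ (z l)) (MvPolynomial.map σ G) ∈ P₃ :=
      Ideal.Quotient.eq_zero_iff_mem.1 hF
    rw [← map_aev] at h1
    exact (hz₁ G).1 (hP₂₁ _ (hP₃₂ h1))

end Pool.Agent.GFR
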