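import Pool.Agent.GFR.Stmts
import Pool.Agent.GFR.Gea
import Pool.Agent.FRM.DSC
import Pool.Agent.DC.HomMap
import Pool.Agent.DC.DIMF

/-!
# GFR: GEN, from a close ideal over an algebraically closed valued field to a close model
-/

set_option autoImplicit false

noncomputable section

namespace Pool.Agent.GFR

open scoped Classical
open MvPolynomial Pool.Agent.LibDb3ab1 Pool.Agent.DC Pool.Agent.FRM

namespace GEN_

/-- integrality over the linear forms -/
theorem kint {k : Type} [Field k] {N r : ℕ} (P : Ideal (MvPolynomial (Fin (N + 1)) k))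
    (z : Fin r → MvPolynomial (Fin (N + 1)) k)
    (h : ∀ i, (kmap P z).IsIntegralElem (Ideal.Quotient.mk P (X i))) : (kmap P z).IsIntegral := by
  intro x
  obtain ⟨F, rfl⟩ := Ideal.Quotient.mk_surjective x
  refine int_all (Ideal.Quotient.mk P) (kmap P z) (fun a => ?_) h F
  have h1 : Ideal.Quotient.mk P (C a) = kmap P z (C a) := by
    rw [kmap, RingHom.comp_apply]
    congr 1
    simp [MvPolynomial.algebraMap_eq]
  rw [h1]
  exact (kmap P z).isIntegralElem_map

theorem kdim {k : Type} [Field k] {N r : ℕ} (P : Ideal (MvPolynomial (Fin (N + 1)) k)) [P.IsPrime]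
    (z : Fin r → MvPolynomial (Fin (N + 1)) k)
    (h : ∀ i, (kmap P z).IsIntegralElem (Ideal.Quotient.mk P (X i)))
    (hinj : Function.Injective (kmap P z)) :
    ringKrullDim (MvPolynomial (Fin (N + 1)) k ⧸ P) = r := by
  let _ : Algebra (MvPolynomial (Fin r) k) (MvPolynomial (Fin (N + 1)) k ⧸ P) :=
    (kmap P z).toAlgebra
  have h2 : Algebra.IsIntegral (MvPolynomial (Fin r) k) (MvPolynomial (Fin (N + 1)) k ⧸ P) :=
    ⟨kint P z h⟩
  have h3 := ringKrullDim_eq_of_integral (A := MvPolynomial (Fin r) k)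
    (B := MvPolynomial (Fin (N + 1)) k ⧸ P) hinj
  rw [← h3, MvPolynomial.ringKrullDim_of_isNoetherianRing, ringKrullDim_eq_zero_of_field, zero_add,
    Nat.card_eq_fintype_card, Fintype.card_fin]

/-- nonzero elements divide nonzero constants -/
theorem exists_delta {k : Type} [Field k] {N r : ℕ} (P : Ideal (MvPolynomial (Fin (N + 1)) k))
    [P.IsPrime] (z : Fin r → MvPolynomial (Fin (N + 1)) k) (h : (kmap P z).IsIntegral)
    (y : MvPolynomial (Fin (N + 1)) k) (hy : y ∉ P) :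
    ∃ (δ : MvPolynomial (Fin r) k) (b : MvPolynomial (Fin (N + 1)) k), δ ≠ 0 ∧
      y * b - MvPolynomial.aeval z δ ∈ P := by
  let _ : Algebra (MvPolynomial (Fin r) k) (MvPolynomial (Fin (N + 1)) k ⧸ P) :=
    (kmap P z).toAlgebra
  have h0 : Ideal.Quotient.mk P y ≠ 0 := fun h1 => hy (Ideal.Quotient.eq_zero_iff_mem.1 h1)
  have h1 : (Ideal.span {Ideal.Quotient.mk P y}).comap
      (algebraMap (MvPolynomial (Fin r) k) (MvPolynomial (Fin (N + 1)) k ⧸ P)) ≠ ⊥ :=
    Ideal.comap_ne_bot_of_integral_mem h0 (Ideal.mem_span_singleton_self _) (h _)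
  obtain ⟨δ, hδ, hδ0⟩ := Submodule.exists_mem_ne_zero_of_ne_bot h1
  rw [Ideal.mem_comap, Ideal.mem_span_singleton] at hδ
  obtain ⟨c, hc⟩ := hδ
  obtain ⟨b, rfl⟩ := Ideal.Quotient.mk_surjective c
  refine ⟨δ, b, hδ0, ?_⟩
  rw [← Ideal.Quotient.eq_zero_iff_mem, map_sub, map_mul, ← hc, sub_eq_zero]
  rfl

end GEN_

open GEN_ DSC_ in
theorem gen_proof (hSpb : Stmt_Spb) (hMinP : Stmt_MinP) (hDsc : Stmt_Dsc) : Stmt_Gen := by
  intro p N d _ J _ E Ω _ _ _ W t P z h
  have hz := h.z_int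
  have hs := h.z_sep
  have hc := h.close
  have hPp := h.prime
  choose fz hfz hfz0 using hz
  choose fs hfs hfs' using hs
  choose fc hfc hfc0 using hc
  let zΩ : Fin (d + 1) → MvPolynomial (Fin (N + 1)) Ω := fun i => MvPolynomial.map W.subtype (z i)
  have hzk : (zmap W P z) = (kmap P zΩ).comp (MvPolynomial.map W.subtype) := by
    ext
    · simp [zmap, vmap, kmap]
    · simp [zmap, vmap, kmap, zΩ]
  have hkX : ∀ i, (kmap P zΩ).IsIntegralElem (Ideal.Quotient.mk P (X i)) := by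
    intro i
    refine ⟨(fz i).map (MvPolynomial.map W.subtype), (hfz i).map _, ?_⟩
    rw [Polynomial.eval₂_map, ← hzk]
    exact hfz0 i
  have hkint : (kmap P zΩ).IsIntegral := kint P zΩ hkX
  have hkinj : Function.Injective (kmap P zΩ) := FIN64_.inj d _ hkint h.dim
  let y : Fin (N + 1) → MvPolynomial (Fin (N + 1)) Ω := fun i =>
    (fs i).derivative.eval₂ (MvPolynomial.aeval zΩ).toRingHom (X i)
  have hy : ∀ i, y i ∉ P := by
    intro i h1
    apply hfs' i
    rw [kmap, ← Polynomial.hom_eval₂]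
    exact Ideal.Quotient.eq_zero_iff_mem.2 h1
  choose δ b hδ0 hδ using fun i => exists_delta P zΩ hkint (y i) (hy i)
  -- the finite sets
  obtain ⟨S₁, hS₁z, hS₁f, hS₁c⟩ : ∃ S₁ : Finset W, (∀ i m, (z i).coeff m ∈ S₁) ∧
      (∀ i n m, ((fz i).coeff n).coeff m ∈ S₁) ∧ (∀ j n m, ((fc j).coeff n).coeff m ∈ S₁) := by
    have hfin : ((⋃ i, {c | ∃ m, c = (z i).coeff m}) ∪
        (⋃ i, {c | ∃ n m, c = ((fz i).coeff n).coeff m}) ∪
        (⋃ j, {c | ∃ n m, c = ((fc j).coeff n).coeff m}) : Set W).Finite :=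
      ((Set.finite_iUnion fun i => fin_mv (z i)).union
        (Set.finite_iUnion fun i => fin_poly (fz i))).union
        (Set.finite_iUnion fun j => fin_poly (fc j))
    refine ⟨hfin.toFinset, fun i m => ?_, fun i n m => ?_, fun j n m => ?_⟩
    · rw [Set.Finite.mem_toFinset]
      exact Or.inl (Or.inl (Set.mem_iUnion.2 ⟨i, m, rfl⟩))
    · rw [Set.Finite.mem_toFinset]
      exact Or.inl (Or.inr (Set.mem_iUnion.2 ⟨i, n, m, rfl⟩))
    · rw [Set.Finite.mem_toFinset]
      exact Or.inr (Set.mem_iUnion.2 ⟨j, n, m, rfl⟩)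
  obtain ⟨S₂, hS₂t, hS₂s, hS₂δ, hS₂b, hS₂i⟩ : ∃ S₂ : Finset Ω, ((t : Ω)⁻¹ ∈ S₂) ∧
      (∀ i n m, ((fs i).coeff n).coeff m ∈ S₂) ∧ (∀ i m, (δ i).coeff m ∈ S₂) ∧
      (∀ i m, (b i).coeff m ∈ S₂) ∧ (∀ i m, ((δ i).coeff m)⁻¹ ∈ S₂) := by
    have hfin : ({(t : Ω)⁻¹} ∪ (⋃ i, {c | ∃ n m, c = ((fs i).coeff n).coeff m}) ∪
        (⋃ i, {c | ∃ m, c = (δ i).coeff m}) ∪ (⋃ i, {c | ∃ m, c = (b i).coeff m}) ∪
        (⋃ i, (fun c => c⁻¹) '' {c | ∃ m, c = (δ i).coeff m}) : Set Ω).Finite :=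
      (((((Set.finite_singleton _).union (Set.finite_iUnion fun i => fin_poly (fs i))).union
        (Set.finite_iUnion fun i => fin_mv (δ i))).union
        (Set.finite_iUnion fun i => fin_mv (b i)))).union
        (Set.finite_iUnion fun i => (fin_mv (δ i)).image _)
    refine ⟨hfin.toFinset, ?_, fun i n m => ?_, fun i m => ?_, fun i m => ?_, fun i m => ?_⟩
    · rw [Set.Finite.mem_toFinset]
      exact Or.inl (Or.inl (Or.inl (Or.inl rfl)))
    · rw [Set.Finite.mem_toFinset]
      exact Or.inl (Or.inl (Or.inl (Or.inr (Set.mem_iUnion.2 ⟨i, n, m, rfl⟩))))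
    · rw [Set.Finite.mem_toFinset]
      exact Or.inl (Or.inl (Or.inr (Set.mem_iUnion.2 ⟨i, m, rfl⟩)))
    · rw [Set.Finite.mem_toFinset]
      exact Or.inl (Or.inr (Set.mem_iUnion.2 ⟨i, m, rfl⟩))
    · rw [Set.Finite.mem_toFinset]
      exact Or.inr (Set.mem_iUnion.2 ⟨i, _, ⟨m, rfl⟩, rfl⟩)
  obtain ⟨D, L, _, σ, ka, _, _, _, j, V, D₁, σ₁, hD, ht, hσ, hA1, hA2, hσσ, ht0, htu, halg⟩ :=
    hSpb p Ω W t h.t_ne h.t_nonunit S₁ S₂
  -- the maps
  let incl : D₁ →+* D := (W.subtype.comp D₁.subtype).codRestrict D hD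
  have hincl : D.subtype.comp incl = W.subtype.comp D₁.subtype := rfl
  have hσ₁ : V.subtype.comp σ₁ = (j.comp σ).comp incl := RingHom.ext fun a => hσσ a
  -- the lifts
  have m1 : ∀ c ∈ S₁, c ∈ Set.range D₁.subtype := fun c hc => ⟨⟨c, hA1 c hc⟩, rfl⟩
  have m2 : ∀ c ∈ S₂, c ∈ Set.range D.subtype := fun c hc => ⟨⟨c, hA2 c hc⟩, rfl⟩
  choose z₁ hz₁ using fun i => lift_mv D₁.subtype (z i) fun m => m1 _ (hS₁z i m)
  choose fz₁ hfz₁ using fun i => lift_poly D₁.subtype (fz i) fun n m => m1 _ (hS₁f i n m)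
  choose fc₁ hfc₁ using fun j => lift_poly D₁.subtype (fc j) fun n m => m1 _ (hS₁c j n m)
  choose fs₁ hfs₁ using fun i => lift_poly D.subtype (fs i) fun n m => m2 _ (hS₂s i n m)
  choose δ₁ hδ₁ using fun i => lift_mv D.subtype (δ i) fun m => m2 _ (hS₂δ i m)
  choose b₁ hb₁ using fun i => lift_mv D.subtype (b i) fun m => m2 _ (hS₂b i m)
  have hD₁i : Function.Injective D₁.subtype := Subtype.val_injective
  have hDi : Function.Injective D.subtype := Subtype.val_injective
  let zD : Fin (d + 1) → MvPolynomial (Fin (N + 1)) D := fun i => MvPolynomial.map incl (z₁ i)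
  have hzD : (fun i => MvPolynomial.map D.subtype (zD i)) = zΩ := by
    funext i
    change MvPolynomial.map D.subtype (MvPolynomial.map incl (z₁ i)) = MvPolynomial.map W.subtype (z i)
    rw [MvPolynomial.map_map, hincl, ← MvPolynomial.map_map, hz₁]
  have hzD' : ∀ i, MvPolynomial.map D.subtype (zD i) = zΩ i := fun i => congrFun hzD i
  -- the relations over `D`
  let G : Fin (N + 1) → MvPolynomial (Fin (N + 1)) D := fun l =>
    ((fz₁ l).map (MvPolynomial.map incl)).eval₂ (MvPolynomial.aeval zD).toRingHom (X l)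
  have hzc : ((MvPolynomial.map D.subtype).comp (MvPolynomial.aeval zD).toRingHom).comp
      (MvPolynomial.map incl) = ((MvPolynomial.map W.subtype).comp
      (MvPolynomial.aeval z).toRingHom).comp (MvPolynomial.map D₁.subtype) := by
    refine MvPolynomial.ringHom_ext (fun a => ?_) fun i => ?_
    · simp [MvPolynomial.algebraMap_eq]
      rfl
    · simp [hzD', zΩ]
  have hG : ∀ l, MvPolynomial.map D.subtype (G l) ∈ P := by
    intro l
    have h1 : MvPolynomial.map D.subtype (G l) = (fz l).eval₂ ((MvPolynomial.map W.subtype).comp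
        (MvPolynomial.aeval z).toRingHom) (X l) := by
      rw [← hfz₁, Polynomial.eval₂_map, ← hzc, Polynomial.hom_eval₂, Polynomial.eval₂_map,
        MvPolynomial.map_X]
    rw [h1, ← Ideal.Quotient.eq_zero_iff_mem, Polynomial.hom_eval₂]
    exact hfz0 l
  have hmon : ∀ l, (fz₁ l).Monic := fun l =>
    Polynomial.monic_of_injective (MvPolynomial.map_injective _ hD₁i) (by rw [hfz₁]; exact hfz l)
  obtain ⟨P', hP'p, hP'h, hP'F, hP'i⟩ := gen_spec D.subtype hDi σ hσ P h.prime h.hom zD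
    (fun l => ⟨_, (hmon l).map _, hG l⟩) (by rw [hzD]; exact hkinj)
  have hP'd : ringKrullDim (MvPolynomial (Fin (N + 1)) L ⧸ P') = (d + 1 : ℕ) := by
    refine kdim P' (fun l => MvPolynomial.map σ (zD l)) (fun l => ?_) hP'i
    refine ⟨((fz₁ l).map (MvPolynomial.map incl)).map (MvPolynomial.map σ),
      ((hmon l).map _).map _, ?_⟩
    have h1 := hP'F _ (hG l)
    rw [← Ideal.Quotient.eq_zero_iff_mem, Polynomial.hom_eval₂, Polynomial.hom_eval₂,
      MvPolynomial.map_X] at h1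
    rw [Polynomial.eval₂_map]
    have h2 : (kmap P' fun l => MvPolynomial.map σ (zD l)).comp (MvPolynomial.map σ) =
        (Ideal.Quotient.mk P').comp ((MvPolynomial.map σ).comp
          (MvPolynomial.aeval zD).toRingHom) := by
      refine MvPolynomial.ringHom_ext (fun a => ?_) fun i => ?_
      · simp [kmap, MvPolynomial.algebraMap_eq]
      · simp [kmap]
    rw [h2]
    exact h1
  obtain ⟨P₃, hP₃le, hP₃p, hP₃h, hP₃d⟩ := hMinP ka N d (P'.map (MvPolynomial.map j))
    (hom_map j P' hP'h) (by rw [dimf_proof L ka j (N + 1) P', hP'd])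
  have hprin : ∀ F : MvPolynomial (Fin (N + 1)) D, MvPolynomial.map D.subtype F ∈ P →
      MvPolynomial.map (j.comp σ) F ∈ P₃ := by
    intro F hF
    rw [← MvPolynomial.map_map]
    exact hP₃le (Ideal.mem_map_of_mem _ (hP'F F hF))
  -- the linear forms
  let z₃ : Fin (d + 1) → MvPolynomial (Fin (N + 1)) V := fun i => MvPolynomial.map σ₁ (z₁ i)
  let zka : Fin (d + 1) → MvPolynomial (Fin (N + 1)) ka := fun i => MvPolynomial.map V.subtype (z₃ i)
  have hzka : ∀ i, zka i = MvPolynomial.map (j.comp σ) (zD i) := by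
    intro i
    change MvPolynomial.map V.subtype (MvPolynomial.map σ₁ (z₁ i)) =
      MvPolynomial.map (j.comp σ) (MvPolynomial.map incl (z₁ i))
    rw [MvPolynomial.map_map, MvPolynomial.map_map, hσ₁]
  have hk2 : (kmap P₃ zka).comp (MvPolynomial.map (j.comp σ)) =
      (Ideal.Quotient.mk P₃).comp ((MvPolynomial.map (j.comp σ)).comp
        (MvPolynomial.aeval zD).toRingHom) := by
    refine MvPolynomial.ringHom_ext (fun a => ?_) fun i => ?_
    · simp [kmap, MvPolynomial.algebraMap_eq]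
    · simp [kmap, hzka]
  have hz2 : (zmap V P₃ z₃).comp (MvPolynomial.map σ₁) =
      ((kmap P₃ zka).comp (MvPolynomial.map (j.comp σ))).comp (MvPolynomial.map incl) := by
    refine MvPolynomial.ringHom_ext (fun a => ?_) fun i => ?_
    · have h1 : ((σ₁ a : V) : ka) = j (σ (incl a)) := hσσ a
      simp [zmap, vmap, kmap, MvPolynomial.algebraMap_eq, h1]
    · simp [zmap, vmap, kmap, zka]
  have hint₃ : ∀ i, (zmap V P₃ z₃).IsIntegralElem (Ideal.Quotient.mk P₃ (X i)) := by
    intro i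
    refine ⟨(fz₁ i).map (MvPolynomial.map σ₁), (hmon i).map _, ?_⟩
    have h1 := hprin _ (hG i)
    rw [← Ideal.Quotient.eq_zero_iff_mem, Polynomial.hom_eval₂, Polynomial.hom_eval₂,
      MvPolynomial.map_X, ← hk2, Polynomial.eval₂_map, ← hz2] at h1
    rw [Polynomial.eval₂_map]
    exact h1
  have hk₃X : ∀ i, (kmap P₃ zka).IsIntegralElem (Ideal.Quotient.mk P₃ (X i)) := by
    intro i
    obtain ⟨f, hf, hfi⟩ := hint₃ i
    refine ⟨f.map (MvPolynomial.map V.subtype), hf.map _, ?_⟩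
    rw [Polynomial.eval₂_map]
    have h1 : (zmap V P₃ z₃) = (kmap P₃ zka).comp (MvPolynomial.map V.subtype) := by
      ext
      · simp [zmap, vmap, kmap]
      · simp [zmap, vmap, kmap, zka]
    rw [← h1]
    exact hfi
  have hk₃inj : Function.Injective (kmap P₃ zka) := FIN64_.inj d _ (kint P₃ zka hk₃X) hP₃d
  refine hDsc p N d J E ka V (σ₁ ⟨t, ht⟩) halg P₃ z₃ ⟨hP₃p, hP₃h, hP₃d, ht0, htu, ?_, hint₃, ?_, ?_⟩
  · intro i
    have h1 : (z₁ i).IsHomogeneous 1 := by
      have h2 := h.z_hom i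
      rw [← hz₁] at h2
      exact IsHomogeneous.of_map (f := D₁.subtype) (hf := hD₁i) h2
    exact h1.map _
  · intro i
    have hev : ∀ q : Polynomial (MvPolynomial (Fin (d + 1)) D),
        (q.map (MvPolynomial.map (j.comp σ))).eval₂ (kmap P₃ zka) (Ideal.Quotient.mk P₃ (X i)) =
        Ideal.Quotient.mk P₃ (MvPolynomial.map (j.comp σ)
          (q.eval₂ (MvPolynomial.aeval zD).toRingHom (X i))) := by
      intro q
      rw [Polynomial.eval₂_map, hk2, Polynomial.hom_eval₂, Polynomial.hom_eval₂,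
        MvPolynomial.map_X]
    have hzΩD : (MvPolynomial.aeval zΩ).toRingHom.comp (MvPolynomial.map D.subtype) =
        (MvPolynomial.map D.subtype).comp (MvPolynomial.aeval zD).toRingHom := by
      refine MvPolynomial.ringHom_ext (fun a => ?_) fun i => ?_
      · simp [MvPolynomial.algebraMap_eq]
      · simp [hzD']
    have hevΩ : ∀ q : Polynomial (MvPolynomial (Fin (d + 1)) D),
        MvPolynomial.map D.subtype (q.eval₂ (MvPolynomial.aeval zD).toRingHom (X i)) =
        (q.map (MvPolynomial.map D.subtype)).eval₂ (MvPolynomial.aeval zΩ).toRingHom (X i) := by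
      intro q
      rw [Polynomial.hom_eval₂, Polynomial.eval₂_map, hzΩD, MvPolynomial.map_X]
    refine ⟨(fs₁ i).map (MvPolynomial.map (j.comp σ)), ?_, ?_⟩
    · rw [hev, Ideal.Quotient.eq_zero_iff_mem]
      apply hprin
      rw [hevΩ, hfs₁, ← Ideal.Quotient.eq_zero_iff_mem, Polynomial.hom_eval₂]
      exact hfs i
    · rw [Polynomial.derivative_map, hev, Ne, Ideal.Quotient.eq_zero_iff_mem]
      intro hcon
      have h1 := hprin ((fs₁ i).derivative.eval₂ (MvPolynomial.aeval zD).toRingHom (X i) * b₁ i -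
        MvPolynomial.aeval zD (δ₁ i)) (by
          rw [map_sub, map_mul, hevΩ, ← Polynomial.derivative_map, hfs₁, hb₁, map_aev, hδ₁, hzD]
          exact hδ i)
      rw [map_sub, map_mul, sub_eq_add_neg] at h1
      have h2 := (Ideal.add_mem_iff_right _ (P₃.mul_mem_right _ hcon)).1 h1
      rw [neg_mem_iff, map_aev] at h2
      have h3 : (fun l => MvPolynomial.map (j.comp σ) (zD l)) = zka := funext fun l => (hzka l).symm
      rw [h3] at h2
      have h4 : kmap P₃ zka (MvPolynomial.map (j.comp σ) (δ₁ i)) = 0 :=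
        Ideal.Quotient.eq_zero_iff_mem.2 h2
      rw [map_eq_zero_iff _ hk₃inj] at h4
      obtain ⟨m, hm⟩ := MvPolynomial.ne_zero_iff.1 (hδ0 i)
      have h5 : (δ₁ i).coeff m * ⟨((δ i).coeff m)⁻¹, hA2 _ (hS₂i i m)⟩ = 1 := by
        apply hDi
        rw [map_mul, map_one, ← MvPolynomial.coeff_map, hδ₁]
        exact mul_inv_cancel₀ hm
      have h6 := congrArg (j.comp σ) h5
      rw [map_mul, map_one, ← MvPolynomial.coeff_map, h4, MvPolynomial.coeff_zero, zero_mul] at h6
      exact zero_ne_one h6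
  · intro l
    let tD : D := incl ⟨t, ht⟩
    let tinv : D := ⟨(t : Ω)⁻¹, hA2 _ hS₂t⟩
    have htΩ : (t : Ω) ≠ 0 := fun h1 => h.t_ne (Subtype.ext h1)
    have htt : tD * tinv = 1 := Subtype.ext (mul_inv_cancel₀ htΩ)
    let cD : MvPolynomial (Fin (N + 1)) D :=
      C (tinv ^ (p + 1)) * (red D (E.g l) ^ p + C (tD ^ p) * red D (E.g₁ l))
    have hred : ∀ (A B : Type) [CommRing A] [CommRing B] (g : A →+* B)
        (F : MvPolynomial (Fin (N + 1)) ℤ), MvPolynomial.map g (red A F) = red B F := by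
      intro A B _ _ g F
      rw [red, red, MvPolynomial.map_map, RingHom.ext_int (g.comp _) (Int.castRingHom B)]
    let GC : MvPolynomial (Fin (N + 1)) D :=
      ((fc₁ l).map (MvPolynomial.map incl)).eval₂ (RingHom.id _) cD
    have hcΩ : MvPolynomial.map D.subtype cD = C (((t : Ω)⁻¹) ^ (p + 1)) *
        (red Ω (E.g l) ^ p + C ((t : Ω) ^ p) * red Ω (E.g₁ l)) := by
      simp only [cD, map_mul, map_add, map_pow, hred, MvPolynomial.map_C]
      rfl
    have hGC : MvPolynomial.map D.subtype GC ∈ P := by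
      rw [← Ideal.Quotient.eq_zero_iff_mem, Polynomial.hom_eval₂, Polynomial.hom_eval₂, hcΩ,
        Polynomial.eval₂_map]
      have h1 := hfc0 l
      rw [← hfc₁, Polynomial.eval₂_map] at h1
      have h2 : ((Ideal.Quotient.mk P).comp ((MvPolynomial.map D.subtype).comp
          (RingHom.id (MvPolynomial (Fin (N + 1)) D)))).comp (MvPolynomial.map incl) =
          (vmap W P).comp (MvPolynomial.map D₁.subtype) := by
        refine MvPolynomial.ringHom_ext (fun a => ?_) fun i => ?_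
        · simp [vmap]
          rfl
        · simp [vmap]
      rw [h2]
      exact h1
    have hmonc : (fc₁ l).Monic :=
      Polynomial.monic_of_injective (MvPolynomial.map_injective _ hD₁i) (by
        rw [hfc₁]; exact hfc l)
    refine ⟨(fc₁ l).map (MvPolynomial.map σ₁), hmonc.map _, ?_⟩
    have h1 := hprin _ hGC
    rw [← Ideal.Quotient.eq_zero_iff_mem, Polynomial.hom_eval₂, Polynomial.hom_eval₂,
      Polynomial.eval₂_map] at h1
    have h2 : ((Ideal.Quotient.mk P₃).comp ((MvPolynomial.map (j.comp σ)).comp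
        (RingHom.id (MvPolynomial (Fin (N + 1)) D)))).comp (MvPolynomial.map incl) =
        (vmap V P₃).comp (MvPolynomial.map σ₁) := by
      refine MvPolynomial.ringHom_ext (fun a => ?_) fun i => ?_
      · have h3 : ((σ₁ a : V) : ka) = j (σ (incl a)) := hσσ a
        simp [vmap, h3]
      · simp [vmap]
    have htk : j (σ tD) = ((σ₁ ⟨t, ht⟩ : V) : ka) := (hσσ ⟨t, ht⟩).symm
    have htik : j (σ tinv) = ((σ₁ ⟨t, ht⟩ : V) : ka)⁻¹ := by
      apply eq_inv_of_mul_eq_one_right
      rw [← htk, ← map_mul, ← map_mul, htt, map_one, map_one]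
    have h3 : MvPolynomial.map (j.comp σ) cD =
        C ((((σ₁ ⟨t, ht⟩ : V) : ka)⁻¹) ^ (p + 1)) * (red ka (E.g l) ^ p +
          C (((σ₁ ⟨t, ht⟩ : V) : ka) ^ p) * red ka (E.g₁ l)) := by
      simp only [cD, map_mul, map_add, map_pow, hred, MvPolynomial.map_C, RingHom.comp_apply, htk,
        htik]
    rw [h2, h3] at h1
    rw [Polynomial.eval₂_map]
    exact h1

end Pool.Agent.GFR
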