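import Pool.Agent.GFR.Stmts
import Pool.Agent.FRM.KZ

/-!
# The element `(p, p^(1/p), p^(1/p^2), …)` of the tilt
-/

set_option autoImplicit false

noncomputable section

namespace Pool.Agent.GFR

open scoped Classical
open MvPolynomial Pool.Agent.LibDb3ab1 Pool.Agent.DC Pool.Agent.FRM

namespace PIV_

/-- Compatible `p`-power roots. -/
theorem roots {p : ℕ} [Fact p.Prime] {C : Type} [Field C] [IsAlgClosed C] (a : C) :
    ∃ r : ℕ → C, r 0 = a ∧ ∀ n, r (n + 1) ^ p = r n := by
  have h : ∀ z : C, ∃ w : C, w ^ p = z := fun z =>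
    IsAlgClosed.exists_pow_nat_eq z (Fact.out : p.Prime).pos
  choose f hf using h
  refine ⟨fun n => f^[n] a, rfl, fun n => ?_⟩
  change (f^[n + 1] a) ^ p = f^[n] a
  rw [Function.iterate_succ_apply', hf]

end PIV_

/-- PIV: the element `(p, p^(1/p), p^(1/p^2), …)` of the tilt. -/
theorem piv_proof : Stmt_Piv := by
  intro p _ C _ _ _ V _ _
  obtain ⟨r, h0, hr⟩ := PIV_.roots (p := p) (p : C)
  have hV : ∀ n, r n ∈ V := by
    intro n
    induction n with
    | zero =>
      rw [h0]
      exact natCast_mem V p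
    | succ n ih =>
      rw [← V.valuation_le_one_iff] at ih ⊢
      rw [← hr n, map_pow] at ih
      exact (pow_le_one_iff (Fact.out : p.Prime).ne_zero).mp ih
  refine ⟨KZ_.vp (fun n => (⟨r n, hV n⟩ : V)) (fun n => Subtype.ext (hr n)), ?_⟩
  rw [KZ_.untilt_vp]
  exact Subtype.ext (h0.trans (by simp))

end Pool.Agent.GFR
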