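import Pool.Agent.GFR.Stmts
import Pool.Agent.XV.All

/-!
# SMK: the variety `X` over every field of characteristic zero
-/

set_option autoImplicit false

noncomputable section

namespace Pool.Agent.GFR.SMK_

open scoped Classical
open MvPolynomial Pool.Agent.XV

section comp

variable {K L : Type} [Field K] [Field L] [Algebra K L] {ι : Type} (b : Module.Basis ι K L)

/-- The component of a polynomial with respect to an element of a basis of the extension. -/
def cmp {σ : Type} (α : ι) (G : MvPolynomial σ L) : MvPolynomial σ K :=
  ∑ m ∈ G.support, monomial m (b.repr (coeff m G) α)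

theorem coeff_cmp {σ : Type} (α : ι) (G : MvPolynomial σ L) (m : σ →₀ ℕ) :
    coeff m (cmp b α G) = b.repr (coeff m G) α := by
  unfold cmp
  rw [coeff_sum]
  simp only [coeff_monomial]
  rw [Finset.sum_ite_eq']
  split_ifs with h
  · rfl
  · rw [notMem_support_iff.mp h, map_zero]
    rfl

theorem cmp_add {σ : Type} (α : ι) (G H : MvPolynomial σ L) :
    cmp b α (G + H) = cmp b α G + cmp b α H := by
  ext m
  rw [coeff_add, coeff_cmp, coeff_cmp, coeff_cmp, coeff_add, map_add]
  rfl

theorem cmp_zero {σ : Type} (α : ι) : cmp b α (0 : MvPolynomial σ L) = 0 := by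
  ext m
  rw [coeff_cmp, coeff_zero, map_zero]
  rfl

theorem cmp_mul {σ : Type} (α : ι) (a : L) (H : MvPolynomial σ K) :
    cmp b α (C a * map (algebraMap K L) H) = C (b.repr a α) * H := by
  ext m
  rw [coeff_cmp, coeff_C_mul, coeff_C_mul, coeff_map]
  have h : a * algebraMap K L (coeff m H) = coeff m H • a := by
    rw [Algebra.smul_def, mul_comm]
  rw [h, map_smul]
  simp only [Finsupp.smul_apply, smul_eq_mul]
  ring

theorem sum_cmp {σ : Type} (G : MvPolynomial σ L) : ∃ A : Finset ι,
    G = ∑ α ∈ A, C (b α) * map (algebraMap K L) (cmp b α G) := by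
  refine ⟨G.support.biUnion fun m => (b.repr (coeff m G)).support, ?_⟩
  ext m
  rw [coeff_sum]
  simp only [coeff_C_mul, coeff_map, coeff_cmp]
  by_cases hm : coeff m G = 0
  · rw [hm, map_zero]
    simp
  · conv_lhs => rw [← b.linearCombination_repr (coeff m G)]
    rw [Finsupp.linearCombination_apply, Finsupp.sum]
    rw [Finset.sum_subset (s₂ := G.support.biUnion fun m => (b.repr (coeff m G)).support)]
    · refine Finset.sum_congr rfl fun α _ => ?_
      rw [Algebra.smul_def, mul_comm]
    · intro α hα
      rw [Finset.mem_biUnion]
      exact ⟨m, mem_support_iff.mpr hm, hα⟩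
    · intro α _ hα
      rw [Finsupp.notMem_support_iff.mp hα, zero_smul]

end comp

theorem cx_map {K L : Type} [Field K] [Field L] (φ : K →+* L)
    (G : MvPolynomial (Fin (N + 1)) K) : cx L (map φ G) = map φ (cx K G) := by
  induction G using MvPolynomial.induction_on with
  | C a => simp [cx]
  | add f g hf hg => rw [map_add, map_add, hf, hg, map_add, map_add]
  | mul_X f i hf =>
    rw [map_mul, map_mul, hf, map_X, map_mul, map_mul]
    congr 1
    simp [cx, cm, mon, br, br2]

theorem cx_cmp {K L : Type} [Field K] [Field L] [Algebra K L] {ι : Type}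
    (b : Module.Basis ι K L) (α : ι) (G : MvPolynomial (Fin (N + 1)) L) :
    cx K (cmp b α G) = cmp b α (cx L G) := by
  induction G using MvPolynomial.induction_on' with
  | monomial m a =>
    have h1 : (monomial m a : MvPolynomial (Fin (N + 1)) L) =
        C a * map (algebraMap K L) (monomial m 1) := by
      rw [map_monomial, map_one, C_mul_monomial, mul_one]
    have h2 : ∀ x : L, cx L (C x) = C x := fun x => (cx L).commutes x
    have h3 : ∀ x : K, cx K (C x) = C x := fun x => (cx K).commutes x
    rw [h1, cmp_mul, map_mul, map_mul, h2, h3, cx_map, cmp_mul]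
  | add f g hf hg => rw [cmp_add, map_add, hf, hg, map_add, cmp_add]

/-- **Base change of the ideal.** -/
theorem map_I {K L : Type} [Field K] [Field L] (φ : K →+* L) :
    (I K).map (MvPolynomial.map φ) = I L := by
  let _ : Algebra K L := φ.toAlgebra
  apply le_antisymm
  · rw [Ideal.map_le_iff_le_comap]
    intro G hG
    have h1 : cx K G = 0 := hG
    show cx L (map φ G) = 0
    rw [cx_map, h1, map_zero]
  · intro G hG
    have h1 : cx L G = 0 := hG
    let b := Module.Basis.ofVectorSpace K L
    obtain ⟨A, hA⟩ := sum_cmp b G
    rw [hA]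
    refine Ideal.sum_mem _ fun α _ => Ideal.mul_mem_left _ _ ?_
    refine Ideal.mem_map_of_mem _ ?_
    show cx K (cmp b α G) = 0
    rw [cx_cmp, h1, cmp_zero]

end Pool.Agent.GFR.SMK_

namespace Pool.Agent.GFR

open scoped Classical
open MvPolynomial Pool.Agent.XV

theorem smk_proof' (K : Type) [Field K] : SmoothVar 3 (XV.I K) := by
  refine ⟨fun L _ φ => ?_, (XV.pri K).2, ?_, fun L _ φ x hx hxI => ?_⟩
  · rw [SMK_.map_I]
    exact (XV.pri L).1
  · rw [XV.dim K]
    norm_num
  · have hxL : ∀ G ∈ XV.I L, eval x G = 0 := by
      intro G hG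
      rw [← SMK_.map_I φ] at hG
      have h1 : (XV.I K).map (MvPolynomial.map φ) ≤ RingHom.ker (eval x) := by
        rw [Ideal.map_le_iff_le_comap]
        intro F hF
        show eval x (MvPolynomial.map φ F) = 0
        rw [eval_map]
        exact hxI F hF
      exact h1 hG
    obtain ⟨G, hG, hli⟩ := XV.jac L N 3
      {f | ∃ F ∈ XV.I K, f = fun l => eval₂ φ x (pderiv l F)} (by
        intro T hT
        refine XV.tan L x hx hxL T fun δ hδ F hF => ?_
        have h0 : ∀ G ∈ XV.I L, eval x G = 0 ∧ ∑ l, eval x (pderiv l G) * δ l = 0 := by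
          intro G hG
          rw [← SMK_.map_I φ] at hG
          rw [Ideal.map] at hG
          induction hG using Submodule.span_induction with
          | mem y hy =>
            obtain ⟨F, hF, rfl⟩ := hy
            refine ⟨?_, ?_⟩
            · rw [eval_map]
              exact hxI F hF
            · have h2 := hT δ hδ _ ⟨F, hF, rfl⟩
              rw [← h2]
              refine Finset.sum_congr rfl fun l _ => ?_
              rw [pderiv_map, eval_map]
          | zero => simp
          | add y z _ _ h1 h2 =>
            refine ⟨by rw [map_add, h1.1, h2.1, add_zero], ?_⟩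
            have h3 : ∀ l, eval x (pderiv l (y + z)) * δ l =
                eval x (pderiv l y) * δ l + eval x (pderiv l z) * δ l := by
              intro l
              rw [map_add, map_add]
              ring
            rw [Finset.sum_congr rfl fun l _ => h3 l, Finset.sum_add_distrib, h1.2, h2.2, add_zero]
          | smul a y _ h1 =>
            refine ⟨by rw [smul_eq_mul, map_mul, h1.1, mul_zero], ?_⟩
            have h3 : ∀ l, eval x (pderiv l (a • y)) * δ l =
                eval x a * (eval x (pderiv l y) * δ l) := by
              intro l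
              rw [smul_eq_mul, pderiv_mul, map_add, map_mul, map_mul, h1.1]
              ring
            rw [Finset.sum_congr rfl fun l _ => h3 l, ← Finset.mul_sum, h1.2, mul_zero]
        exact (h0 F hF).2)
    choose F hF hFG using hG
    refine ⟨F, hF, ?_⟩
    have h : G = fun i (l : Fin (N + 1)) => eval₂ φ x (pderiv l (F i)) := funext hFG
    rw [← h]
    exact hli

/-- **The variety `X` over every field of characteristic zero.** -/
theorem smk_proof : Stmt_Smk := fun K _ _ => smk_proof' K

end Pool.Agent.GFR
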