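import Pool.Agent.FRM.Stmts

/-!
# GFR: algebraicity in SPB
-/

set_option autoImplicit false

noncomputable section

namespace Pool.Agent.GFR

open scoped Classical
open MvPolynomial Pool.Agent.LibDb3ab1 Pool.Agent.DC Pool.Agent.FRM

/-- If `B` is algebraic over `k[τ]` with `k` algebraic over `F_p` and `ka` is algebraic over `B`,
then `ka` is algebraic over `F_p[τ]`. -/
theorem algT_all {p : ℕ} [Fact p.Prime] {k B : Type} [Field k] [CommRing B] [IsDomain B]
    [Algebra k B] (α : ZMod p →+* k) (hα : α.IsIntegral) (τ : B)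
    (halg : Algebra.IsAlgebraic (Algebra.adjoin k {τ}) B) {ka : Type} [Field ka] [CharP ka p]
    (ψ : B →+* ka) (hψ : Function.Injective ψ)
    (hka : ∀ x : ka, ∃ f : Polynomial B, f ≠ 0 ∧ f.eval₂ ψ x = 0) (x : ka) :
    AlgT p (ψ τ) x := by
  let _ : Algebra (Polynomial (ZMod p)) ka := (evt p (ψ τ)).toAlgebra
  set M : Subalgebra (Polynomial (ZMod p)) ka :=
    Subalgebra.algebraicClosure (Polynomial (ZMod p)) ka with hM
  have hev : ∀ f : Polynomial (ZMod p), algebraMap (Polynomial (ZMod p)) ka f = evt p (ψ τ) f :=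
    fun _ => rfl
  have h1 : ∀ c : k, ψ (algebraMap k B c) ∈ M := by
    intro c
    obtain ⟨f, hf, hfc⟩ := hα c
    refine ⟨f.map Polynomial.C, (hf.map _).ne_zero, ?_⟩
    rw [Polynomial.aeval_def, Polynomial.eval₂_map]
    have h2 : (algebraMap (Polynomial (ZMod p)) ka).comp Polynomial.C =
        (ψ.comp (algebraMap k B)).comp α := RingHom.ext_zmod _ _
    rw [h2]
    have h3 := congrArg (ψ.comp (algebraMap k B)) hfc
    rw [Polynomial.hom_eval₂, map_zero] at h3
    exact h3
  have h2 : ψ τ ∈ M := by
    have h3 : ψ τ = algebraMap (Polynomial (ZMod p)) ka Polynomial.X := by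
      rw [hev, evt, Polynomial.coe_eval₂RingHom, Polynomial.eval₂_X]
    rw [h3]
    exact M.algebraMap_mem _
  have h3 : ∀ y ∈ Algebra.adjoin k {τ}, ψ y ∈ M := by
    intro y hy
    induction hy using Algebra.adjoin_induction with
    | mem x hx =>
      rw [Set.mem_singleton_iff.1 hx]
      exact h2
    | algebraMap r => exact h1 r
    | add x y _ _ hx hy => rw [map_add]; exact add_mem hx hy
    | mul x y _ _ hx hy => rw [map_mul]; exact mul_mem hx hy
  have h4 : ∀ y : B, ψ y ∈ M := by
    intro y
    obtain ⟨f, hf, hfy⟩ := halg.isAlgebraic y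
    let θ : Algebra.adjoin k {τ} →+* M :=
      (ψ.comp (Algebra.adjoin k {τ}).val.toRingHom).codRestrict M fun z => h3 z z.2
    have hθ : Function.Injective θ := by
      intro a b hab
      apply Subtype.ext
      apply hψ
      exact congrArg (fun z : M => (z : ka)) hab
    have h5 : IsAlgebraic M (ψ y) := by
      refine ⟨f.map θ, (Polynomial.map_ne_zero_iff hθ).2 hf, ?_⟩
      rw [Polynomial.aeval_def, Polynomial.eval₂_map]
      have h6 := congrArg ψ hfy
      rw [Polynomial.aeval_def, Polynomial.hom_eval₂, map_zero] at h6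
      exact h6
    exact h5.restrictScalars (Polynomial (ZMod p))
  have h5 : x ∈ M := by
    obtain ⟨f, hf, hfx⟩ := hka x
    let θ : B →+* M := ψ.codRestrict M h4
    have hθ : Function.Injective θ := by
      intro a b hab
      apply hψ
      exact congrArg (fun z : M => (z : ka)) hab
    have h5 : IsAlgebraic M x := by
      refine ⟨f.map θ, (Polynomial.map_ne_zero_iff hθ).2 hf, ?_⟩
      rw [Polynomial.aeval_def, Polynomial.eval₂_map]
      exact hfx
    exact h5.restrictScalars (Polynomial (ZMod p))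
  obtain ⟨f, hf, hfx⟩ := h5
  exact ⟨f, hf, hfx⟩

end Pool.Agent.GFR
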