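import Mathlib

/-!
# GFR: curves through a point of a variety
-/

set_option autoImplicit false

noncomputable section

namespace Pool.Agent.GFR

open scoped Classical
open MvPolynomial

/-- **Curves on varieties.** -/
theorem spz {k : Type} [Field k] [IsAlgClosed k] {A : Type} [CommRing A] [IsDomain A] [Algebra k A]
    [Algebra.FiniteType k A] (t ρ : A) (ht : t ≠ 0) (hρ : ρ ≠ 0) (hu : ¬IsUnit t) :
    ∃ 𝔭 𝔫 : Ideal A, 𝔭.IsPrime ∧ 𝔫.IsMaximal ∧ 𝔭 ≤ 𝔫 ∧ t ∈ 𝔫 ∧ t ∉ 𝔭 ∧ ρ ∉ 𝔭 ∧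
      Algebra.IsAlgebraic (Algebra.adjoin k {Ideal.Quotient.mk 𝔭 t}) (A ⧸ 𝔭) := by
  obtain ⟨𝔫, h𝔫, htn⟩ := exists_max_ideal_of_mem_nonunits hu
  obtain ⟨s, g, hginj, hgint⟩ := exists_integral_inj_algHom_of_fg k A
  let _ : Algebra (MvPolynomial (Fin s) k) A := g.toRingHom.toAlgebra
  have halg : ∀ f, algebraMap (MvPolynomial (Fin s) k) A f = g f := fun _ => rfl
  have : IsScalarTower k (MvPolynomial (Fin s) k) A := IsScalarTower.of_algebraMap_eq fun c =>
    (g.commutes c).symm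
  have : Algebra.IsIntegral (MvPolynomial (Fin s) k) A := ⟨hgint⟩
  have : FaithfulSMul (MvPolynomial (Fin s) k) A :=
    (faithfulSMul_iff_algebraMap_injective _ _).mpr hginj
  -- the point
  have h𝔪 : (𝔫.comap (algebraMap (MvPolynomial (Fin s) k) A)).IsMaximal :=
    Ideal.isMaximal_comap_of_isIntegral_of_isMaximal 𝔫
  obtain ⟨a, ha⟩ := isMaximal_iff_eq_vanishingIdeal_singleton.1 h𝔪
  have hmem : ∀ f : MvPolynomial (Fin s) k, g f ∈ 𝔫 ↔ aeval a f = 0 := by
    intro f
    rw [← halg, ← Ideal.mem_comap, ha, mem_vanishingIdeal_singleton_iff]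
  -- the norm
  have htρ : t * ρ ≠ 0 := mul_ne_zero ht hρ
  have h1 : (Ideal.span {t * ρ}).comap (algebraMap (MvPolynomial (Fin s) k) A) ≠ ⊥ :=
    Ideal.comap_ne_bot_of_integral_mem htρ (Ideal.mem_span_singleton_self _)
      (Algebra.IsIntegral.isIntegral _)
  obtain ⟨ν, hν, hν0⟩ := Submodule.exists_mem_ne_zero_of_ne_bot h1
  rw [Ideal.mem_comap, Ideal.mem_span_singleton] at hν
  have hνa : aeval a ν = 0 := by
    rw [← hmem, ← halg]
    exact Ideal.mem_of_dvd 𝔫 hν (𝔫.mul_mem_right _ htn)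
  -- the line
  obtain ⟨b, hb⟩ : ∃ b : Fin s → k, aeval b ν ≠ 0 := by
    by_contra hcon
    push Not at hcon
    apply hν0
    apply MvPolynomial.funext
    intro x
    rw [map_zero, ← coe_aeval_eq_eval]
    exact hcon x
  let lam : MvPolynomial (Fin s) k →ₐ[k] Polynomial k :=
    aeval fun i => Polynomial.C (a i) + Polynomial.C (b i - a i) * Polynomial.X
  have hlam : ∀ (c : k) (f : MvPolynomial (Fin s) k),
      (lam f).eval c = aeval (fun i => a i + (b i - a i) * c) f := by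
    intro c f
    have h2 : (Polynomial.aeval c).comp lam = aeval (R := k) (fun i => a i + (b i - a i) * c) := by
      apply MvPolynomial.algHom_ext
      intro i
      simp [lam]
    have h3 := DFunLike.congr_fun h2 f
    rw [← h3, AlgHom.comp_apply, Polynomial.coe_aeval_eq_eval]
  have hlamν : lam ν ≠ 0 := by
    intro h
    apply hb
    have h2 := hlam 1 ν
    rw [h, Polynomial.eval_zero] at h2
    rw [h2]
    congr 2
    funext i
    ring
  let 𝔯 : Ideal (MvPolynomial (Fin s) k) := RingHom.ker lam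
  have h𝔯 : 𝔯.IsPrime := RingHom.ker_isPrime _
  have h𝔯le : 𝔯 ≤ 𝔫.comap (algebraMap (MvPolynomial (Fin s) k) A) := by
    intro f hf
    rw [Ideal.mem_comap, halg, hmem]
    have h2 := hlam 0 f
    rw [(RingHom.mem_ker).1 hf, Polynomial.eval_zero] at h2
    rw [h2]
    congr 2
    funext i
    ring
  have : 𝔫.LiesOver (𝔫.comap (algebraMap (MvPolynomial (Fin s) k) A)) := ⟨rfl⟩
  have := h𝔫.isPrime
  have := h𝔪.isPrime
  obtain ⟨𝔭, h𝔭𝔫, h𝔭, hlo⟩ := Ideal.exists_ideal_le_liesOver_of_le (R := MvPolynomial (Fin s) k)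
    (p := 𝔯) (q := 𝔫.comap (algebraMap (MvPolynomial (Fin s) k) A)) 𝔫 h𝔯le
  have hover : ∀ f : MvPolynomial (Fin s) k, g f ∈ 𝔭 ↔ lam f = 0 := by
    intro f
    rw [← halg, ← Ideal.mem_comap]
    have h2 : 𝔭.comap (algebraMap (MvPolynomial (Fin s) k) A) = 𝔯 := hlo.over.symm
    rw [h2]
    exact RingHom.mem_ker
  have htρ𝔭 : t * ρ ∉ 𝔭 := by
    intro h
    apply hlamν
    rw [← hover, ← halg]
    exact Ideal.mem_of_dvd 𝔭 hν h
  have ht𝔭 : t ∉ 𝔭 := fun h => htρ𝔭 (𝔭.mul_mem_right _ h)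
  refine ⟨𝔭, 𝔫, h𝔭, h𝔫, h𝔭𝔫, htn, ht𝔭, fun h => htρ𝔭 (𝔭.mul_mem_left _ h), ?_⟩
  -- the transcendence degree
  have hab : ∃ i, b i - a i ≠ 0 := by
    by_contra hcon
    push Not at hcon
    apply hb
    rw [← hνa]
    congr 2
    funext i
    exact sub_eq_zero.1 (hcon i)
  obtain ⟨i₀, hi₀⟩ := hab
  let τ : A ⧸ 𝔭 := Ideal.Quotient.mk 𝔭 (g (C ((b i₀ - a i₀)⁻¹) * (X i₀ - C (a i₀))))
  have hτ : ∀ i, Ideal.Quotient.mk 𝔭 (g (X i)) ∈ Algebra.adjoin k {τ} := by
    intro i
    have h2 : Ideal.Quotient.mk 𝔭 (g (X i)) =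
        algebraMap k (A ⧸ 𝔭) (a i) + algebraMap k (A ⧸ 𝔭) (b i - a i) * τ := by
      have h3 : g (X i - (C (a i) + C (b i - a i) * (C ((b i₀ - a i₀)⁻¹) * (X i₀ - C (a i₀))))) ∈
          𝔭 := by
        rw [hover]
        simp only [lam, map_sub, map_add, map_mul, aeval_X]
        simp only [← MvPolynomial.algebraMap_eq, AlgHom.commutes]
        have h4 : (algebraMap k (Polynomial k)) (b i₀ - a i₀)⁻¹ * Polynomial.C (b i₀ - a i₀) = 1 := by
          rw [Polynomial.algebraMap_eq, ← Polynomial.C_mul, inv_mul_cancel₀ hi₀, Polynomial.C_1]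
        simp only [Polynomial.algebraMap_eq, map_sub] at h4 ⊢
        linear_combination (-(Polynomial.C (b i) - Polynomial.C (a i)) * Polynomial.X) * h4
      have h4 := Ideal.Quotient.eq_zero_iff_mem.2 h3
      rw [map_sub, map_sub, sub_eq_zero] at h4
      rw [h4, map_add, map_add, map_mul, map_mul]
      congr 1
      · have h5 : g (C (a i)) = algebraMap k A (a i) := g.commutes _
        rw [h5]
        rfl
      · have h5 : g (C (b i - a i)) = algebraMap k A (b i - a i) := g.commutes _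
        rw [h5]
        rfl
    rw [h2]
    exact add_mem (Subalgebra.algebraMap_mem _ _)
      (mul_mem (Subalgebra.algebraMap_mem _ _) (Algebra.subset_adjoin rfl))
  have hτ' : ∀ f : MvPolynomial (Fin s) k, Ideal.Quotient.mk 𝔭 (g f) ∈ Algebra.adjoin k {τ} := by
    intro f
    induction f using MvPolynomial.induction_on with
    | C c =>
      have h5 : g (C c) = algebraMap k A c := g.commutes _
      rw [h5]
      exact Subalgebra.algebraMap_mem (Algebra.adjoin k {τ}) c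
    | add p q hp hq =>
      rw [map_add, map_add]
      exact add_mem hp hq
    | mul_X p i hp =>
      rw [map_mul, map_mul]
      exact mul_mem hp (hτ i)
  have halgτ : Algebra.IsAlgebraic (Algebra.adjoin k {τ}) (A ⧸ 𝔭) := by
    constructor
    intro x
    obtain ⟨y, rfl⟩ := Ideal.Quotient.mk_surjective x
    apply IsIntegral.isAlgebraic
    obtain ⟨f, hf, hf0⟩ := hgint y
    let g' : MvPolynomial (Fin s) k →+* Algebra.adjoin k {τ} :=
      ((Ideal.Quotient.mk 𝔭).comp g.toRingHom).codRestrict (Algebra.adjoin k {τ}) hτ'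
    refine ⟨f.map g', hf.map _, ?_⟩
    rw [Polynomial.eval₂_map]
    have h2 := congrArg (Ideal.Quotient.mk 𝔭) hf0
    rw [Polynomial.hom_eval₂, map_zero] at h2
    exact h2
  have htr : Algebra.trdeg k (A ⧸ 𝔭) ≤ 1 := by
    have := Algebra.IsAlgebraic.trdeg_le_cardinalMk k ({τ} : Set (A ⧸ 𝔭))
    simpa using this
  -- `t` is transcendental
  have htt : Transcendental k (Ideal.Quotient.mk 𝔭 t) := by
    intro h
    have h2 : IsIntegral k (Ideal.Quotient.mk 𝔭 t) := isAlgebraic_iff_isIntegral.1 h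
    have h3 : ∃ c : k, algebraMap k (A ⧸ 𝔭) c = Ideal.Quotient.mk 𝔭 t :=
      minpoly.mem_range_of_degree_eq_one k _
        (IsAlgClosed.degree_eq_one_of_irreducible k (minpoly.irreducible h2))
    obtain ⟨c, hc⟩ := h3
    have h4 : t - algebraMap k A c ∈ 𝔭 := by
      rw [← Ideal.Quotient.eq_zero_iff_mem, map_sub, ← hc, sub_eq_zero]
      rfl
    have h5 : algebraMap k A c ∈ 𝔫 := by
      have := 𝔫.sub_mem htn (h𝔭𝔫 h4)
      rwa [sub_sub_cancel] at this
    by_cases hc0 : c = 0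
    · rw [hc0, map_zero, sub_zero] at h4
      exact ht𝔭 h4
    · exact h𝔫.ne_top (Ideal.eq_top_of_isUnit_mem _ h5 ((isUnit_iff_ne_zero.2 hc0).map _))
  have hind : AlgebraicIndependent k (fun _ : Fin 1 => Ideal.Quotient.mk 𝔭 t) := by
    rw [algebraicIndependent_unique_type_iff]
    exact htt
  have hbasis := hind.isTranscendenceBasis_of_trdeg_le_of_finite (by simpa using htr)
  have h2 := hbasis.isAlgebraic
  have h3 : Set.range (fun _ : Fin 1 => Ideal.Quotient.mk 𝔭 t) = {Ideal.Quotient.mk 𝔭 t} := by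
    ext x
    simp
  rw [h3] at h2
  exact h2

end Pool.Agent.GFR
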