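import Pool.Agent.GFR.Stmts
import Pool.Agent.GFR.Spa
import Pool.Agent.GFR.Spz
import Pool.Agent.DC.MainG

/-!
# GFR: SPB, specialisation to an algebraic closure of `F_p(t)`
-/

set_option autoImplicit false

noncomputable section

namespace Pool.Agent.GFR

open scoped Classical
open MvPolynomial Pool.Agent.LibDb3ab1 Pool.Agent.DC Pool.Agent.FRM

/-- The local ring of a prime ideal, as a subring of a field. -/
theorem spb_aux {A B Ω : Type} [CommRing A] [CommRing B] [IsLocalRing B] [Algebra A B]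
    (𝔭 : Ideal A) [𝔭.IsPrime] [IsLocalization.AtPrime B 𝔭] [Field Ω] (ι : A →+* Ω)
    (hι : Function.Injective ι) :
    ∃ (D : Subring Ω) (σ : D →+* IsLocalRing.ResidueField B) (h : ∀ a, ι a ∈ D),
      Function.Surjective σ ∧ (∀ a, σ ⟨ι a, h a⟩ = IsLocalRing.residue B (algebraMap A B a)) ∧
      ∀ a, a ∉ 𝔭 → (ι a)⁻¹ ∈ D := by
  have hne : ∀ y : 𝔭.primeCompl, ι y ≠ 0 := by
    intro y h0
    rw [map_eq_zero_iff _ hι] at h0
    exact y.2 (h0 ▸ 𝔭.zero_mem)
  have hunit : ∀ y : 𝔭.primeCompl, IsUnit (ι y) := fun y => (hne y).isUnit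
  let φ : B →+* Ω := IsLocalization.lift hunit
  have hφ : ∀ a : A, φ (algebraMap A B a) = ι a := fun a => IsLocalization.lift_eq hunit a
  have hφi : Function.Injective φ := by
    rw [IsLocalization.lift_injective_iff]
    intro a b
    constructor
    · intro h
      have h1 := congrArg φ h
      rwa [hφ, hφ] at h1
    · intro h
      rw [hι h]
  let e : B ≃+* φ.range := RingEquiv.ofBijective φ.rangeRestrict
    ⟨fun a b hab => hφi (congrArg Subtype.val hab), φ.rangeRestrict_surjective⟩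
  refine ⟨φ.range, (IsLocalRing.residue B).comp e.symm.toRingHom,
    fun a => ⟨algebraMap A B a, hφ a⟩, ?_, ?_, ?_⟩
  · exact IsLocalRing.residue_surjective.comp e.symm.surjective
  · intro a
    have h1 : (⟨ι a, ⟨algebraMap A B a, hφ a⟩⟩ : φ.range) = e (algebraMap A B a) :=
      Subtype.ext (hφ a).symm
    rw [h1]
    change IsLocalRing.residue B (e.symm (e _)) = _
    rw [e.symm_apply_apply]
  · intro a ha
    refine ⟨IsLocalization.mk' B 1 (⟨a, ha⟩ : 𝔭.primeCompl), ?_⟩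
    apply (hunit ⟨a, ha⟩).mul_right_cancel
    rw [inv_mul_cancel₀ (hne ⟨a, ha⟩), ← hφ, ← map_mul, IsLocalization.mk'_spec, map_one, map_one]

theorem spb_proof : Stmt_Spb := by
  intro p _ Ω _ _ _ W t ht0 htu S₁ S₂
  -- the constants
  obtain ⟨k₀, _, _, α₀, β₀, hαβ, hint, -⟩ := exists_ka (ZMod.castHom (dvd_refl p) Ω)
  have hk₀ : ∀ x : k₀, β₀ x ∈ W := by
    intro x
    obtain ⟨f, hf, hfx⟩ := hint x
    have h1 : IsIntegral W (β₀ x) := by
      refine ⟨f.map (ZMod.castHom (dvd_refl p) W), hf.map _, ?_⟩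
      rw [Polynomial.eval₂_map, RingHom.ext_zmod ((algebraMap W Ω).comp
        (ZMod.castHom (dvd_refl p) W)) (β₀.comp α₀), ← Polynomial.hom_eval₂, hfx, map_zero]
    obtain ⟨y, hy⟩ := IsIntegrallyClosed.isIntegral_iff.1 h1
    rw [← hy]
    exact y.2
  let γ : k₀ →+* W := β₀.codRestrict W.toSubring hk₀
  let _ : Algebra k₀ W := γ.toAlgebra
  -- the finitely generated algebra
  let r : Ω → W := fun s => if h : s ∈ W then ⟨s, h⟩ else ⟨s⁻¹, (W.mem_or_inv_mem s).resolve_left h⟩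
  let T₁ : Finset W := insert t (S₁ ∪ S₂.image r)
  let A : Subalgebra k₀ W := Algebra.adjoin k₀ (T₁ : Set W)
  have hT : ∀ x ∈ T₁, x ∈ A := fun x hx => Algebra.subset_adjoin (Finset.mem_coe.2 hx)
  have : Algebra.FiniteType k₀ A :=
    (Subalgebra.fg_iff_finiteType A).1 (Subalgebra.fg_adjoin_finset T₁)
  have htA : t ∈ A := hT t (Finset.mem_insert_self _ _)
  have hrA : ∀ s ∈ S₂, r s ∈ A := fun s hs =>
    hT _ (Finset.mem_insert_of_mem (Finset.mem_union_right _ (Finset.mem_image_of_mem r hs)))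
  let r' : Ω → A := fun s => if h : s ∈ S₂ ∧ s ∉ W then ⟨r s, hrA s h.1⟩ else 1
  let ρ : A := ∏ s ∈ S₂, r' s
  have hρ : ρ ≠ 0 := by
    rw [Finset.prod_ne_zero_iff]
    intro s hs h0
    by_cases h : s ∈ S₂ ∧ s ∉ W
    · have h1 : r' s = ⟨r s, hrA s h.1⟩ := dif_pos h
      rw [h1] at h0
      have h2 : r s = 0 := congrArg Subtype.val h0
      have h3 : r s = ⟨s⁻¹, (W.mem_or_inv_mem s).resolve_left h.2⟩ := dif_neg h.2
      rw [h3] at h2
      have h4 : s⁻¹ = 0 := congrArg Subtype.val h2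
      rw [inv_eq_zero] at h4
      exact h.2 (h4 ▸ W.zero_mem)
    · have h1 : r' s = 1 := dif_neg h
      rw [h1] at h0
      exact one_ne_zero h0
  obtain ⟨𝔭, 𝔫, h𝔭, h𝔫, hle, htn, ht𝔭, hρ𝔭, halg⟩ := spz (k := k₀) (A := A) ⟨t, htA⟩ ρ
    (fun h => ht0 (congrArg Subtype.val h)) hρ (fun h => htu (h.map A.val))
  -- the local ring
  let ιA : A →+* Ω := W.subtype.comp A.val.toRingHom
  have hιA : Function.Injective ιA := by
    intro a b hab
    exact Subtype.ext (Subtype.ext hab)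
  obtain ⟨D, σ, hAD, hσ, hσA, hinv⟩ := spb_aux (B := Localization.AtPrime 𝔭) 𝔭 ιA hιA
  let L : Type := 𝔭.ResidueField
  let ka : Type := AlgebraicClosure L
  let j : L →+* ka := algebraMap L (AlgebraicClosure L)
  -- the map of `A`
  let τ : A →+* ka := (algebraMap L (AlgebraicClosure L)).comp (algebraMap A 𝔭.ResidueField)
  have hτ0 : ∀ a, τ a = 0 ↔ a ∈ 𝔭 := by
    intro a
    change algebraMap L (AlgebraicClosure L) (algebraMap A 𝔭.ResidueField a) = 0 ↔ _
    rw [map_eq_zero, Ideal.algebraMap_residueField_eq_zero]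
  have hchar : CharP ka p := by
    have h1 : CharP k₀ p := charP_of_injective_ringHom α₀.injective p
    exact charP_of_injective_ringHom (f := τ.comp (algebraMap k₀ A)) (RingHom.injective _) p
  -- the valuation ring
  let I : Ideal τ.range := 𝔫.map τ.rangeRestrict
  have hcom : I.comap τ.rangeRestrict = 𝔫 := by
    rw [Ideal.comap_map_of_surjective _ τ.rangeRestrict_surjective, sup_eq_left]
    intro a ha
    rw [Ideal.mem_comap, Ideal.mem_bot] at ha
    apply hle
    rw [← hτ0]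
    exact congrArg Subtype.val ha
  have hI : I ≠ ⊤ := by
    intro h
    rw [h, Ideal.comap_top] at hcom
    exact h𝔫.ne_top hcom.symm
  obtain ⟨V, hV1, hV2⟩ := Ideal.image_subset_nonunits_valuationSubring I hI
  have hτV : ∀ a, τ a ∈ V := fun a => hV1 ⟨a, rfl⟩
  let D₁ : Subring W := A.toSubring
  let σ₁ : D₁ →+* V := RingHom.codRestrict (R := D₁) τ V.toSubring hτV
  have hmem : ∀ a : A, ((a : W) : Ω) ∈ D := hAD
  refine ⟨D, L, inferInstance, σ, ka, inferInstance, inferInstance, hchar, j, V, D₁, σ₁, hmem, htA,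
    ?_, ?_, ?_, ?_, ?_, ?_, ?_⟩
  · exact hσ
  · intro a ha
    exact hT a (Finset.mem_insert_of_mem (Finset.mem_union_left _ ha))
  · intro s hs
    by_cases h : s ∈ W
    · have h1 : r s = ⟨s, h⟩ := dif_pos h
      have h2 : ((r s : W) : Ω) ∈ D := hmem ⟨r s, hrA s hs⟩
      rw [h1] at h2
      exact h2
    · have h1 : r s = ⟨s⁻¹, (W.mem_or_inv_mem s).resolve_left h⟩ := dif_neg h
      have h2 : r' s = ⟨r s, hrA s hs⟩ := dif_pos ⟨hs, h⟩
      have h3 : r' s ∉ 𝔭 := by
        intro h4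
        exact hρ𝔭 (Ideal.mem_of_dvd 𝔭 (Finset.dvd_prod_of_mem r' hs) h4)
      have h4 := hinv (r' s) h3
      have h5 : ιA (r' s) = s⁻¹ := by
        rw [h2]
        change ((r s : W) : Ω) = s⁻¹
        rw [h1]
      rwa [h5, inv_inv] at h4
  · intro a
    exact congrArg j (hσA a).symm
  · intro h
    have h1 : τ ⟨t, htA⟩ = 0 := congrArg Subtype.val h
    rw [hτ0] at h1
    exact ht𝔭 h1
  · intro h
    have h1 : τ ⟨t, htA⟩ ∈ V.nonunits := hV2 ⟨⟨τ ⟨t, htA⟩, ⟨_, rfl⟩⟩,
      Ideal.mem_map_of_mem τ.rangeRestrict htn, rfl⟩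
    rw [ValuationSubring.mem_nonunits_iff] at h1
    rw [V.valuation_eq_one_iff] at h
    exact h1.ne h
  · intro x
    refine algT_all (k := k₀) (B := A ⧸ 𝔭) α₀ hint (Ideal.Quotient.mk 𝔭 ⟨t, htA⟩) halg
      ((algebraMap L (AlgebraicClosure L)).comp (algebraMap (A ⧸ 𝔭) 𝔭.ResidueField)) ?_ ?_ x
    · exact (algebraMap L (AlgebraicClosure L)).injective.comp
        (Ideal.injective_algebraMap_quotient_residueField 𝔭)
    · intro x
      have h1 : Algebra.IsAlgebraic (A ⧸ 𝔭) (AlgebraicClosure L) :=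
        (IsFractionRing.comap_isAlgebraic_iff (A := A ⧸ 𝔭) (K := 𝔭.ResidueField)
          (C := AlgebraicClosure L)).2 inferInstance
      obtain ⟨f, hf, hfx⟩ := h1.isAlgebraic x
      exact ⟨f, hf, hfx⟩

end Pool.Agent.GFR
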