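import Pool.Agent.GFR.EXC
import Pool.Agent.GFR.PIV
import Pool.Agent.GFR.SMK
import Pool.Agent.GFR.Spb
import Pool.Agent.GFR.Gen
import Pool.Agent.GFR.FRK
import Pool.Agent.XV.All
import Pool.Agent.DIS.InterfaceP

/-!
# GFR: the frame over all perfectoid fields of characteristic zero, and the disproof from the core
-/

set_option autoImplicit false

noncomputable section

namespace Pool.Agent.GFR

open scoped Classical
open MvPolynomial Pool.Agent.LibDb3ab1 Pool.Agent.DC Pool.Agent.FRM Pool.Agent.DIS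

theorem gen : Stmt_Gen := gen_proof spb_proof minp_proof (dsc_proof dvr_proof)

theorem frameK : Stmt_FrameK := frameK_proof exc_proof piv_proof gen

theorem frameKC : Stmt_FrameKC := frameKC_proof frameK

/-- The negated form of the question over the valued field `(K, O)` of mixed characteristic: there
is a smooth closed subvariety `X` of a projective space over `K` and an open neighbourhood `U` of
`X^ad` such that no closed subscheme `Y` of the projective space over the tilt which has the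
dimension of `X` satisfies `Y^ad ⊆ π⁻¹(U)`. -/
def NegationK (p : ℕ) [Fact p.Prime] {K : Type} [Field K] (O : ValuationSubring K)
    [Fact ¬IsUnit (p : O)] : Prop :=
  ∃ (N d : ℕ) (I : Ideal (MvPolynomial (Fin (N + 1)) K)), SmoothVar d I ∧
    ∃ U : Set (AdicProj O N), IsOpen U ∧ adicLocus O I ⊆ U ∧
      ∀ 𝔓 : Ideal (MvPolynomial (Fin (N + 1)) (FractionRing (PreTilt O p))),
        (∀ F ∈ 𝔓, ∀ m, homogeneousComponent m F ∈ 𝔓) →
        ringKrullDim (MvPolynomial (Fin (N + 1)) (FractionRing (PreTilt O p)) ⧸ 𝔓) =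
          (d + 1 : ℕ) → ¬TiltInside p O 𝔓 U

/-- The disproof over all perfectoid fields of residue characteristic `p`, from the core. -/
theorem negationK_of_core (p : ℕ) [Fact p.Prime]
    (hcore : ∀ (J : Type) [Finite J] (E : Eqs p XV.N J), XV.GoodEqs E →
      IsEmpty (CompleteModel E 3))
    (K : Type) [Field K] [CharZero K] (O : ValuationSubring K) [Fact ¬IsUnit (p : O)]
    [IsAdicComplete (Ideal.span {(p : O)}) O]
    (hrank : ∀ x : O, ¬IsUnit x → ∃ k : ℕ, (p : O) ∣ x ^ k) : NegationK p O := by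
  obtain ⟨J, hJ, E, hE⟩ := XV.gen p
  refine ⟨XV.N, 3, XV.I K, smk_proof' K, frameKC p XV.N 3 J E ?_ (hcore J E hE) K O hrank (XV.I K)
    fun j => ?_⟩
  · refine XV.fib (ZMod p) _ fun g hg => ?_
    rw [← hE.span] at hg
    have h : Ideal.map (MvPolynomial.map (Int.castRingHom (ZMod p)))
        (Ideal.span (Set.range E.g)) ≤
          Ideal.span (Set.range fun j => red (ZMod p) (E.g j)) := by
      rw [Ideal.map_span]
      refine Ideal.span_mono ?_
      rintro _ ⟨_, ⟨j, rfl⟩, rfl⟩
      exact ⟨j, rfl⟩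
    exact h (Ideal.mem_map_of_mem _ hg)
  · have h : E.g j ∈ XV.I ℤ := hE.span ▸ Ideal.subset_span ⟨j, rfl⟩
    exact red_mem K h

/-- The disproof over all perfectoid fields of residue characteristic `p`, from the core, with the
ideal of the threefold. -/
theorem disproof_of_core (p : ℕ) [Fact p.Prime]
    (hcore : ∀ (J : Type) [Finite J] (E : Eqs p XV.N J), XV.GoodEqs E →
      IsEmpty (CompleteModel E 3))
    (K : Type) [Field K] [CharZero K] (O : ValuationSubring K) [Fact ¬IsUnit (p : O)]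
    [IsAdicComplete (Ideal.span {(p : O)}) O]
    (hrank : ∀ x : O, ¬IsUnit x → ∃ k : ℕ, (p : O) ∣ x ^ k) :
    SmoothVar 3 (XV.I K) ∧ ∃ U : Set (AdicProj O XV.N), IsOpen U ∧ adicLocus O (XV.I K) ⊆ U ∧
      ∀ 𝔓 : Ideal (MvPolynomial (Fin (XV.N + 1)) (FractionRing (PreTilt O p))),
        (∀ F ∈ 𝔓, ∀ m, homogeneousComponent m F ∈ 𝔓) →
        ringKrullDim (MvPolynomial (Fin (XV.N + 1)) (FractionRing (PreTilt O p)) ⧸ 𝔓) =
          ringKrullDim (MvPolynomial (Fin (XV.N + 1)) K ⧸ XV.I K) → ¬TiltInside p O 𝔓 U := by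
  obtain ⟨J, hJ, E, hE⟩ := XV.gen p
  obtain ⟨U, hU, hIU, h⟩ := frameKC p XV.N 3 J E (by
    refine XV.fib (ZMod p) _ fun g hg => ?_
    rw [← hE.span] at hg
    have h : Ideal.map (MvPolynomial.map (Int.castRingHom (ZMod p)))
        (Ideal.span (Set.range E.g)) ≤
          Ideal.span (Set.range fun j => red (ZMod p) (E.g j)) := by
      rw [Ideal.map_span]
      refine Ideal.span_mono ?_
      rintro _ ⟨_, ⟨j, rfl⟩, rfl⟩
      exact ⟨j, rfl⟩
    exact h (Ideal.mem_map_of_mem _ hg)) (hcore J E hE) K O hrank (XV.I K) fun j => by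
    have h : E.g j ∈ XV.I ℤ := hE.span ▸ Ideal.subset_span ⟨j, rfl⟩
    exact red_mem K h
  refine ⟨smk_proof' K, U, hU, hIU, fun 𝔓 h1 h2 => h 𝔓 h1 ?_⟩
  rw [h2]
  exact (smk_proof' K).dim

end Pool.Agent.GFR
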