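import Pool.Agent.GFR.All
import Pool.Agent.DIS.Alg
import Pool.Agent.DIS.AlgP
import Pool.Agent.DIS.End
import Pool.Agent.DIS.EndP
import Pool.Agent.NUM.All
import Pool.Agent.SFB.All
import Pool.Agent.SFB.RHO
import Pool.Agent.SFB.PLM
import Pool.Agent.SFB.PTC
import Pool.Agent.SFS.All
import Pool.Agent.SFR.All
import Pool.Agent.SFR.AllNT
import Pool.Agent.FIN.Count
import Pool.Agent.DIL.All
import Pool.Agent.BRG.Main
import Pool.Agent.BRG.GRW
import Pool.Agent.BRG.VGP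
import Pool.Agent.BRG.PAR
import Pool.Agent.BRG.LNP
import Pool.Agent.BRG.CMP
import Pool.Agent.CPU.Main

/-!
# The core theorem: there is no complete close model of the threefold
-/

set_option autoImplicit false

noncomputable section

namespace Pool.Agent.GFR

open Pool.Agent Pool.Agent.FRM Pool.Agent.DIS

theorem frk : SFR.Stmt_FRK := SFR.frk_proof (SFR.fun_proof SFR.val_proof SFR.gau_proof)

theorem nin : SFB.Stmt_NIN :=
  SFB.All.nin_of SFR.red SFR.frp_proof frk SFS.a_top SFS.a_ctr SFS.a_crv SFS.a_trp SFS.a_deg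
    SFS.a_zed SFS.a_gns (SFB.rho_proof SFS.a_top)
    (SFB.plm_proof SFS.a_top SFS.a_ctr SFS.a_trp (SFB.rho_proof SFS.a_top))
    (SFB.ptc_proof XV.tri XV.sym)

theorem num : DIS.Stmt_Num := NUM.stmtNum nin

theorem grw_of (hCmp : BRG.Stmt_Cmp) : BRG.Stmt_GRW :=
  BRG.grw_proof GML.a_gro XB.qgr' XV.pri XB.hib GML.a_cnt DIL.rnk
    (BRG.vgp_proof XB.uch XB.ray XS.xpr XB.vgt XS.xsl)
    (BRG.PAR_proof XB.fid XB.fnh XB.lfk XB.hmb XV.pri) hCmp

theorem tub_of (hCmp : BRG.Stmt_Cmp) : FIN.Stmt_Tub :=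
  BRG.tub (BRG.LNP_proof XV.dim XV.pri XB.lza XB.lze) (grw_of hCmp)

theorem count_of (hCmp : BRG.Stmt_Cmp) : DIS.Stmt_Count := FIN.count_of_tub DIL.exact (tub_of hCmp)

/-- **The core theorem for the prime two.** -/
theorem core2 (J : Type) [Finite J] (E : Eqs 2 XV.N J)
    (hE : XV.GoodEqs E) : IsEmpty (CompleteModel E 3) :=
  DIS.core (count_of BRG.cmp_proof) num DIS.alg DIS.end_proof J E hE

/-- **The core theorem for all primes.** -/
theorem coreP (p : ℕ) [Fact p.Prime] (J : Type) [Finite J] (E : Eqs p XV.N J)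
    (hE : XV.GoodEqs E) : IsEmpty (CompleteModel E 3) :=
  DIS.coreP (count_of BRG.cmp_proof) num (DIS.algP CPU.end1) DIS.endP_proof p J E hE

end Pool.Agent.GFR
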