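import Pool.Agent.FRM.Main

/-!
# GFR: from points to close ideals over an algebraically closed field
-/

set_option autoImplicit false
set_option linter.unusedSectionVars false

noncomputable section

namespace Pool.Agent.GFR

open scoped Classical
open MvPolynomial Pool.Agent.LibDb3ab1 Pool.Agent.DC Pool.Agent.FRM

/-- The algebraic part of the frame: from a prime ideal over an algebraically closed field, whose
zeros satisfy the congruences, to a close ideal over this field. -/
theorem close_pts (hLinz : Stmt_Linz) (hFin : Stmt_Fin) (hBdi : Stmt_Bdi) {p N d : ℕ} [Fact p.Prime] {J : Type} [Finite J] (E : Eqs p N J)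
    (hdim : ringKrullDim (MvPolynomial (Fin (N + 1)) (ZMod p) ⧸
      Ideal.span (Set.range fun j => red (ZMod p) (E.g j))) ≤ (d + 1 : ℕ))
    {W Ω ka : Type} [CommRing W] [IsDomain W] [ValuationRing W] [Field Ω] [Algebra W Ω]
    [IsFractionRing W Ω] [IsAlgClosed Ω] [Field ka] [IsAlgClosed ka] [CharP ka p]
    (β : ka →+* Ω) (t : ka) (ϖ : W) (hϖ : algebraMap W Ω ϖ = β t) (hϖ0 : ϖ ≠ 0)
    (hϖu : ¬IsUnit ϖ)
    (P : Ideal (MvPolynomial (Fin (N + 1)) ka)) (hP : P.IsPrime) (hPh : Homog P)
    (hPd : ringKrullDim (MvPolynomial (Fin (N + 1)) ka ⧸ P) = (d + 1 : ℕ))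
    (hz : ∀ (y : Fin (N + 1) → W) (l : Fin (N + 1)), y l = 1 →
      (∀ F ∈ P, eval₂ β (fun i => algebraMap W Ω (y i)) F = 0) →
      ∀ j, ϖ ^ (p + 1) ∣ eval₂ (Int.castRingHom W) y (E.g j) ^ p +
        ϖ ^ p * eval₂ (Int.castRingHom W) y (E.g₁ j)) :
    ∃ (V : ValuationSubring ka) (t' : V) (z : Fin (d + 1) → MvPolynomial (Fin (N + 1)) V),
      (t' : ka) = t ∧ IsClose E d V t' P z := by
  have hp0 : p ≠ 0 := (Fact.out : p.Prime).ne_zero
  set Va : ValuationSubring ka := (ValuationRing.valuation W Ω).valuationSubring.comap β with hVa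
  have hmem : ∀ x, x ∈ Va ↔ ∃ w : W, algebraMap W Ω w = β x := fun x => mem_vr (W := W) (β x)
  -- the constants
  obtain ⟨k₀, _, _, α₀, β₀, hαβ, hint, -⟩ := exists_ka (ZMod.castHom (dvd_refl p) ka)
  have hk₀ : ∀ x : k₀, β₀ x ∈ Va := by
    intro x
    obtain ⟨f, hf, hfx⟩ := hint x
    have h1 : IsIntegral Va (β₀ x) := by
      refine ⟨f.map (ZMod.castHom (dvd_refl p) Va), hf.map _, ?_⟩
      rw [Polynomial.eval₂_map, RingHom.ext_zmod ((algebraMap Va ka).comp
        (ZMod.castHom (dvd_refl p) Va)) (β₀.comp α₀), ← Polynomial.hom_eval₂, hfx, map_zero]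
    obtain ⟨y, hy⟩ := IsIntegrallyClosed.isIntegral_iff.1 h1
    rw [← hy]
    exact y.2
  let γ : k₀ →+* Va := β₀.codRestrict Va.toSubring hk₀
  have hγ : Va.subtype.comp γ = β₀ := rfl
  -- the linear forms
  obtain ⟨z, hz1, hz2, hz3⟩ := hLinz k₀ ka β₀ N d
    (Ideal.span (Set.range fun j => red k₀ (E.g j)))
    (homog_span _ (by rintro _ ⟨j, rfl⟩; exact ⟨E.e j, (E.hom j).map _⟩)) (by
      have h1 := dimf_proof (ZMod p) k₀ α₀ (N + 1)
        (Ideal.span (Set.range fun j => red (ZMod p) (E.g j)))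
      have h2 : (Ideal.span (Set.range fun j => red (ZMod p) (E.g j))).map
          (MvPolynomial.map α₀) = Ideal.span (Set.range fun j => red k₀ (E.g j)) := by
        rw [Ideal.map_span, ← Set.range_comp]
        refine congrArg (fun u => Ideal.span (Set.range u)) (funext fun j => ?_)
        change MvPolynomial.map α₀ (MvPolynomial.map (Int.castRingHom (ZMod p)) (E.g j)) =
          MvPolynomial.map (Int.castRingHom k₀) (E.g j)
        rw [MvPolynomial.map_map,
          RingHom.ext_int (α₀.comp (Int.castRingHom (ZMod p))) (Int.castRingHom k₀)]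
      rw [h2] at h1
      rw [h1]
      exact hdim) P hP hPh hPd
  let zV : Fin (d + 1) → MvPolynomial (Fin (N + 1)) Va := fun i => MvPolynomial.map γ (z i)
  have hzV : ∀ i, MvPolynomial.map Va.subtype (zV i) = MvPolynomial.map β₀ (z i) := by
    intro i
    change MvPolynomial.map Va.subtype (MvPolynomial.map γ (z i)) = _
    rw [MvPolynomial.map_map, hγ]
  have hzVh : ∀ i, (zV i).IsHomogeneous 1 := fun i => (hz1 i).map _
  -- the values of the linear forms at integral points
  have hval : ∀ (y : Fin (N + 1) → W) (i : Fin (d + 1)),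
      algebraMap W Ω (eval₂ ((toW (W := W) β).comp γ) y (z i)) =
      eval₂ (β.comp Va.subtype) (fun i => algebraMap W Ω (y i)) (zV i) := by
    intro y i
    have h1 : (algebraMap W Ω).comp ((toW (W := W) β).comp γ) = (β.comp Va.subtype).comp γ := by
      ext x
      exact toW_spec (W := W) β (γ x)
    change _ = eval₂ (β.comp Va.subtype) (fun i => algebraMap W Ω (y i))
      (MvPolynomial.map γ (z i))
    rw [eval₂_map, ← h1, hom_eval₂]
  have hunit : ∀ y : Fin (N + 1) → W, (∃ l, y l = 1) →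
      (∀ F ∈ P, eval₂ β (fun i => algebraMap W Ω (y i)) F = 0) →
      ∃ (i : Fin (d + 1)) (w : W), IsUnit w ∧
        algebraMap W Ω w = eval₂ (β.comp Va.subtype) (fun i => algebraMap W Ω (y i)) (zV i) := by
    rintro y ⟨l, hl⟩ hy
    by_contra hcon
    push Not at hcon
    obtain ⟨M, hM⟩ := hz2 l
    have h1 : Ideal.span (Set.range fun j => red k₀ (E.g j)) ⊔ Ideal.span (Set.range z) ≤
        (IsLocalRing.maximalIdeal W).comap (eval₂Hom ((toW (W := W) β).comp γ) y) := by
      rw [sup_le_iff, Ideal.span_le, Ideal.span_le]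
      constructor
      · rintro _ ⟨j, rfl⟩
        change eval₂ _ _ (MvPolynomial.map _ _) ∈ IsLocalRing.maximalIdeal W
        rw [eval₂_map, RingHom.ext_int (((toW (W := W) β).comp γ).comp (Int.castRingHom k₀))
          (Int.castRingHom W), IsLocalRing.mem_maximalIdeal, mem_nonunits_iff]
        intro hu
        have h2 := hz y l hl hy j
        have h3 : ϖ ∣ eval₂ (Int.castRingHom W) y (E.g j) ^ p := by
          rw [← dvd_add_left (Dvd.dvd.mul_right (dvd_pow_self ϖ hp0) _)]
          exact (dvd_pow_self ϖ (Nat.succ_ne_zero p)).trans h2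
        exact hϖu (isUnit_of_dvd_unit h3 (hu.pow p))
      · rintro _ ⟨i, rfl⟩
        change eval₂ _ _ (z i) ∈ IsLocalRing.maximalIdeal W
        rw [IsLocalRing.mem_maximalIdeal, mem_nonunits_iff]
        intro hu
        exact hcon i _ hu (hval y i)
    have h2 := h1 hM
    rw [Ideal.mem_comap, map_pow, coe_eval₂Hom, eval₂_X, hl, one_pow] at h2
    exact (Ideal.ne_top_iff_one _).1 (IsLocalRing.maximalIdeal.isMaximal W).ne_top h2
  have hfin := hFin ka Ω β N d P hP hPh hPd (fun i => MvPolynomial.map β₀ (z i))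
    (fun i => (hz1 i).map _) (by
      intro y hy hyP
      obtain ⟨c, x, l, hc, hxl, hyx⟩ := exists_scale (W := W) y hy
      have hxP := zero_scale (n := N) hPh β hc hyx hyP
      obtain ⟨i, w, hw, hwx⟩ := hunit x ⟨l, hxl⟩ hxP
      refine ⟨i, ?_⟩
      rw [eval₂_scale β c hyx ((hz1 i).map _), ← hzV, eval₂_map, ← hwx]
      refine mul_ne_zero (pow_ne_zero _ hc) ?_
      rw [Ne, map_eq_zero_iff _ (IsFractionRing.injective W Ω)]
      exact hw.ne_zero)
  have hb := hBdi W Ω ka β Va hmem N (d + 1) P hP hPh zV hzVh (by simpa only [hzV] using hfin.1)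
    (by simpa only [hzV] using hfin.2) hunit
  have htV : t ∈ Va := (hmem t).2 ⟨ϖ, hϖ⟩
  have ht0 : t ≠ 0 := by
    rintro rfl
    rw [map_zero, map_eq_zero_iff _ (IsFractionRing.injective W Ω)] at hϖ
    exact hϖ0 hϖ
  refine ⟨Va, ⟨t, htV⟩, zV, rfl, hP, hPh, hPd, ?_, ?_, hzVh, ?_, ?_, ?_⟩
  · intro h
    exact ht0 (congrArg Subtype.val h)
  · intro h
    apply hϖu
    have h1 : toW (W := W) β ⟨t, htV⟩ = ϖ := by
      apply IsFractionRing.injective W Ω
      rw [toW_spec, hϖ]
    rw [← h1]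
    exact h.map _
  · intro i
    refine hb (X i) 1 one_pos (isHomogeneous_X _ _) ?_
    intro y _ _
    exact ⟨y i, by rw [eval₂_X]⟩
  · simpa only [hzV] using hz3
  · intro j
    have hβt : β t ≠ 0 := (map_ne_zero β).2 ht0
    refine vmap_of_zmap Va P zV (hb _ (p * E.e j) (Nat.mul_pos (Fact.out : p.Prime).pos (E.pos j))
      ?_ ?_)
    · have h1 : (red ka (E.g j) ^ p).IsHomogeneous (p * E.e j) := by
        rw [mul_comm]
        exact ((E.hom j).map _).pow p
      have h2 : (C (t ^ p) * red ka (E.g₁ j)).IsHomogeneous (p * E.e j) := by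
        have := (isHomogeneous_C (Fin (N + 1)) (t ^ p)).mul ((E.hom₁ j).map (Int.castRingHom ka))
        rwa [zero_add] at this
      have := (isHomogeneous_C (Fin (N + 1)) ((t⁻¹) ^ (p + 1))).mul (h1.add h2)
      rwa [zero_add] at this
    · rintro y ⟨l, hl⟩ hy
      obtain ⟨w, hw⟩ := hz y l hl hy j
      refine ⟨w, ?_⟩
      have h1 : ∀ F : MvPolynomial (Fin (N + 1)) ℤ,
          eval₂ β (fun i => algebraMap W Ω (y i)) (red ka F) =
          algebraMap W Ω (eval₂ (Int.castRingHom W) y F) := by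
        intro F
        rw [eval₂_map, hom_eval₂, RingHom.ext_int (β.comp (Int.castRingHom ka))
          ((algebraMap W Ω).comp (Int.castRingHom W))]
      rw [eval₂_mul, eval₂_add, eval₂_pow, eval₂_mul, eval₂_C, eval₂_C, h1, h1, map_pow,
        map_pow, map_inv₀]
      have h2 := congrArg (algebraMap W Ω) hw
      rw [map_add, map_mul, map_mul, map_pow, map_pow, map_pow, hϖ] at h2
      rw [h2, inv_pow, inv_mul_cancel_left₀ (pow_ne_zero _ hβt)]

end Pool.Agent.GFR
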