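import Pool.Agent.GFR.Stmts
import Pool.Agent.DC.Inst
import Pool.Agent.DC.TN

/-!
# GFR: a complete algebraically closed extension
-/

set_option autoImplicit false
set_option linter.unusedSectionVars false

noncomputable section

namespace Pool.Agent.GFR

open scoped Classical NNReal
open Pool.Agent.LibDb3ab1 Pool.Agent.DC

section ball

variable (C : Type) [NormedField C] [IsUltrametricDist C]

/-- The unit ball. -/
def ub : ValuationSubring C := (NormedField.valuation (K := C)).valuationSubring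

variable {C}

theorem mem_ub {x : C} : x ∈ ub C ↔ ‖x‖ ≤ 1 := by
  rw [ub, Valuation.mem_valuationSubring_iff]
  exact Iff.rfl

theorem isUnit_ub {x : ub C} : IsUnit x ↔ ‖(x : C)‖ = 1 := by
  constructor
  · rintro ⟨u, rfl⟩
    have h1 : ‖((u : ub C) : C)‖ ≤ 1 := mem_ub.1 (u : ub C).2
    have h2 : ‖((u⁻¹ : (ub C)ˣ) : C)‖ ≤ 1 := mem_ub.1 ((u⁻¹ : (ub C)ˣ) : ub C).2
    have h3 : ‖((u : ub C) : C)‖ * ‖((u⁻¹ : (ub C)ˣ) : C)‖ = 1 := by
      rw [← norm_mul]
      have h4 : ((u : ub C) : C) * (((u⁻¹ : (ub C)ˣ) : ub C) : C) = 1 := by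
        exact congrArg (fun y : ub C => (y : C)) (Units.mul_inv u)
      rw [h4, norm_one]
    nlinarith [norm_nonneg (((u : ub C) : C)), norm_nonneg (((u⁻¹ : (ub C)ˣ) : C))]
  · intro h
    have h0 : (x : C) ≠ 0 := by
      intro h0
      rw [h0, norm_zero] at h
      exact zero_ne_one h
    refine IsUnit.of_mul_eq_one ⟨(x : C)⁻¹, ?_⟩ ?_
    · rw [mem_ub, norm_inv, h, inv_one]
    · apply Subtype.ext
      change (x : C) * (x : C)⁻¹ = 1
      exact mul_inv_cancel₀ h0

theorem dvd_ub {x y : ub C} : x ∣ y ↔ ‖(y : C)‖ ≤ ‖(x : C)‖ := by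
  constructor
  · rintro ⟨z, rfl⟩
    have h1 : ‖(z : C)‖ ≤ 1 := mem_ub.1 z.2
    change ‖(x : C) * (z : C)‖ ≤ _
    rw [norm_mul]
    exact mul_le_of_le_one_right (norm_nonneg _) h1
  · intro h
    by_cases hx : (x : C) = 0
    · rw [hx, norm_zero] at h
      have hy : y = 0 := Subtype.ext (norm_le_zero_iff.1 h)
      rw [hy]
      exact dvd_zero _
    · refine ⟨⟨(y : C) / x, ?_⟩, ?_⟩
      · rw [mem_ub, norm_div]
        exact div_le_one_of_le₀ h (norm_nonneg _)
      · apply Subtype.ext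
        change (y : C) = x * (y / x)
        rw [mul_div_cancel₀ _ hx]

variable {p : ℕ} (h0 : 0 < ‖(p : C)‖) (h1 : ‖(p : C)‖ < 1)

theorem coe_p_ub : ((p : ub C) : C) = p := by norm_cast

include h1 in
theorem not_unit_ub : ¬IsUnit (p : ub C) := by
  rw [isUnit_ub, coe_p_ub]
  exact h1.ne

include h0 in
theorem rank_one_ub (x : ub C) (hx : ¬IsUnit x) : ∃ n : ℕ, (p : ub C) ∣ x ^ n := by
  have h1 : ‖(x : C)‖ < 1 := by
    rw [isUnit_ub] at hx
    exact lt_of_le_of_ne (mem_ub.1 x.2) hx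
  obtain ⟨n, hn⟩ := exists_pow_lt_of_lt_one h0 h1
  refine ⟨n, ?_⟩
  rw [dvd_ub, coe_p_ub]
  have h2 : ((x ^ n : ub C) : C) = (x : C) ^ n := by norm_cast
  rw [h2, norm_pow]
  exact hn.le

theorem pow_dvd_ub {n : ℕ} {x : ub C} :
    (p : ub C) ^ n ∣ x ↔ ‖(x : C)‖ ≤ ‖(p : C)‖ ^ n := by
  rw [dvd_ub]
  have h2 : (((p : ub C) ^ n : ub C) : C) = (p : C) ^ n := by norm_cast
  rw [h2, norm_pow]

include h0 h1 in
theorem complete_ub [CompleteSpace C] : IsAdicComplete (Ideal.span {(p : ub C)}) (ub C) where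
  haus' x hx := by
    have h2 : ∀ n : ℕ, ‖(x : C)‖ ≤ ‖(p : C)‖ ^ n := by
      intro n
      have h2 := hx n
      rw [smul_eq_mul, Ideal.mul_top, SModEq.zero, Ideal.span_singleton_pow,
        Ideal.mem_span_singleton] at h2
      exact pow_dvd_ub.1 h2
    have h3 := tendsto_pow_atTop_nhds_zero_of_lt_one h0.le h1
    have h4 : ‖(x : C)‖ ≤ 0 := ge_of_tendsto' h3 h2
    exact Subtype.ext (norm_le_zero_iff.1 h4)
  prec' f hf := by
    have h2 : ∀ m n : ℕ, m ≤ n → ‖((f m : ub C) : C) - f n‖ ≤ ‖(p : C)‖ ^ m := by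
      intro m n hmn
      have h2 := hf hmn
      rw [smul_eq_mul, Ideal.mul_top, SModEq.sub_mem, Ideal.span_singleton_pow,
        Ideal.mem_span_singleton] at h2
      exact pow_dvd_ub.1 h2
    have h3 : CauchySeq fun n => ((f n : ub C) : C) := by
      rw [Metric.cauchySeq_iff']
      intro ε hε
      obtain ⟨N, hN⟩ := exists_pow_lt_of_lt_one hε h1
      refine ⟨N, fun n hn => ?_⟩
      rw [dist_comm, dist_eq_norm]
      exact (h2 N n hn).trans_lt hN
    obtain ⟨y, hy⟩ := cauchySeq_tendsto_of_complete h3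
    have h3 : ∀ m : ℕ, ‖((f m : ub C) : C) - y‖ ≤ ‖(p : C)‖ ^ m := by
      intro m
      have h4 : Filter.Tendsto (fun n => ‖((f m : ub C) : C) - f n‖) Filter.atTop
          (nhds ‖((f m : ub C) : C) - y‖) := (tendsto_const_nhds.sub hy).norm
      exact le_of_tendsto h4 (Filter.eventually_atTop.2 ⟨m, fun n hn => h2 m n hn⟩)
    have h5 : ‖y‖ ≤ 1 := le_of_tendsto hy.norm (Filter.Eventually.of_forall fun n =>
      mem_ub.1 (f n).2)
    refine ⟨⟨y, mem_ub.2 h5⟩, fun n => ?_⟩
    rw [smul_eq_mul, Ideal.mul_top, SModEq.sub_mem, Ideal.span_singleton_pow,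
      Ideal.mem_span_singleton, pow_dvd_ub]
    exact h3 n

end ball

section field

variable {K : Type} [Field K] {O : ValuationSubring K} {p : ℕ}
  [Fact ¬IsUnit (p : O)] [IsAdicComplete (Ideal.span {(p : O)}) O]

/-- `p` is a pseudo-uniformiser. -/
theorem pu_p [CharZero K] (hp : p ≠ 0) : PU (p : O) where
  ne_zero := by
    intro h
    have h1 : (((p : O) : O) : K) = 0 := by rw [h]; rfl
    have h2 : (((p : O) : O) : K) = p := by norm_cast
    rw [h2] at h1
    exact hp (by exact_mod_cast h1)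
  not_unit := Fact.out
  cof x hx := by
    by_contra hcon
    push Not at hcon
    apply hx
    refine IsHausdorff.haus (I := Ideal.span {(p : O)}) inferInstance x fun n => ?_
    rw [smul_eq_mul, Ideal.mul_top, SModEq.zero, Ideal.span_singleton_pow,
      Ideal.mem_span_singleton]
    rcases ValuationRing.dvd_total x ((p : O) ^ n) with h | h
    · exact absurd h (hcon n)
    · exact h

theorem complete_p (h : PU (p : O)) (x : ℕ → K)
    (hx : ∀ ε : ℝ, 0 < ε → ∃ N, ∀ i ≥ N, ∀ j ≥ N, vn K (p : O) (x i - x j) < ε) :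
    ∃ y, ∀ ε : ℝ, 0 < ε → ∃ N, ∀ i ≥ N, vn K (p : O) (x i - y) < ε := by
  have h2 : ∀ k : ℕ, ∃ M, ∀ i ≥ M, ∀ j ≥ M, vn K (p : O) (x i - x j) < (1 / 2) ^ k :=
    fun k => hx _ (by positivity)
  choose M hM using h2
  let M' : ℕ → ℕ := fun k => (Finset.range (k + 1)).sup M
  have hM' : ∀ k m, k ≤ m → M k ≤ M' m := fun k m hkm =>
    Finset.le_sup (f := M) (Finset.mem_range.2 (Nat.lt_succ_of_le hkm))
  have h3 : ∀ k : ℕ, ∃ w : O, algebraMap O K w = x (M' k) - x (M' 0) := fun k =>
    exists_of_vn_lt h (by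
      have := hM 0 (M' k) (hM' 0 k (Nat.zero_le k)) (M' 0) (hM' 0 0 le_rfl)
      rwa [pow_zero] at this)
  choose w hw using h3
  have h4 : ∀ {m n : ℕ}, m ≤ n → w m ≡ w n [SMOD (Ideal.span {(p : O)}) ^ m • (⊤ : Submodule O O)] := by
    intro m n hmn
    rw [smul_eq_mul, Ideal.mul_top, SModEq.sub_mem, Ideal.span_singleton_pow,
      Ideal.mem_span_singleton]
    apply TN.dvd_of_vn_lt (F := K) h
    rw [map_sub, hw, hw, sub_sub_sub_cancel_right]
    exact hM m _ (hM' m m le_rfl) _ (hM' m n hmn)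
  obtain ⟨y, hy⟩ := IsPrecomplete.prec (I := Ideal.span {(p : O)}) inferInstance h4
  refine ⟨x (M' 0) + algebraMap O K y, fun ε hε => ?_⟩
  obtain ⟨k, hk⟩ := exists_pow_lt_of_lt_one hε (show (1 / 2 : ℝ) < 1 by norm_num)
  refine ⟨M' k, fun i hi => ?_⟩
  have h5 : x i - (x (M' 0) + algebraMap O K y) =
      (x i - x (M' k)) + algebraMap O K (w k - y) := by
    rw [map_sub, hw]
    ring
  rw [h5]
  refine lt_of_le_of_lt (vn_add_le h _ _) (max_lt ?_ ?_)
  · exact (hM k i ((hM' k k le_rfl).trans hi) _ (hM' k k le_rfl)).trans hk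
  · refine lt_of_le_of_lt (TN.vn_le_of_dvd (F := K) (n := k) h ?_) hk
    have h6 := hy k
    rwa [smul_eq_mul, Ideal.mul_top, SModEq.sub_mem, Ideal.span_singleton_pow,
      Ideal.mem_span_singleton] at h6

theorem vn_le_one_iff (h : PU (p : O)) (hr : ∀ x : O, ¬IsUnit x → ∃ k : ℕ, (p : O) ∣ x ^ k)
    (x : K) : vn K (p : O) x ≤ 1 ↔ x ∈ O := by
  constructor
  · intro h1
    by_contra hx
    have hx0 : x ≠ 0 := fun h0 => hx (by rw [h0]; exact O.zero_mem)
    have h2 : x⁻¹ ∈ O := (O.mem_or_inv_mem x).resolve_left hx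
    have h3 : ¬IsUnit (⟨x⁻¹, h2⟩ : O) := by
      rintro ⟨u, hu⟩
      apply hx
      have h4 : (((u⁻¹ : Oˣ) : O) : K) = x := by
        have h5 : ((u : O) : K) * (((u⁻¹ : Oˣ) : O) : K) = 1 :=
          congrArg (fun y : O => (y : K)) (Units.mul_inv u)
        rw [hu] at h5
        change x⁻¹ * _ = 1 at h5
        field_simp at h5
        exact h5
      rw [← h4]
      exact ((u⁻¹ : Oˣ) : O).2
    obtain ⟨k, hk⟩ := hr _ h3
    have h4 := TN.vn_le_of_dvd (F := K) (n := 1) h (w := (⟨x⁻¹, h2⟩ : O) ^ k) (by rwa [pow_one])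
    rw [map_pow, vn_pow h] at h4
    change vn K (p : O) x⁻¹ ^ k ≤ _ at h4
    rw [vn_inv h, pow_one] at h4
    have h5 : 0 < vn K (p : O) x := vn_pos h hx0
    have h6 : 1 ≤ (vn K (p : O) x)⁻¹ := (one_le_inv₀ h5).2 h1
    have h7 : 1 ≤ (vn K (p : O) x)⁻¹ ^ k := one_le_pow₀ h6
    have h8 : ((1 : ℝ) / 2) < 1 := by norm_num
    linarith
  · intro h1
    exact vn_le_one (F := K) (⟨x, h1⟩ : O)

end field

/-- The completion of an algebraic closure. -/
theorem exists_C (K : Type) [NontriviallyNormedField K] [IsUltrametricDist K] [CompleteSpace K]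
    [CharZero K] : ∃ (C : Type) (_ : NontriviallyNormedField C) (_ : IsUltrametricDist C)
      (_ : CompleteSpace C) (_ : IsAlgClosed C) (ι : K →+* C), ∀ x, ‖ι x‖ = ‖x‖ := by
  let iL : NontriviallyNormedField (AlgebraicClosure K) :=
    spectralNorm.nontriviallyNormedField K (AlgebraicClosure K)
  let iA : NormedAlgebra K (AlgebraicClosure K) := spectralNorm.normedAlgebra K (AlgebraicClosure K)
  have hLn : ∀ x : K, ‖algebraMap K (AlgebraicClosure K) x‖ = ‖x‖ := fun x =>
    spectralNorm_extends x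
  have iLu : IsUltrametricDist (AlgebraicClosure K) :=
    IsUltrametricDist.isUltrametricDist_of_forall_norm_add_le_max_norm
      (isNonarchimedean_spectralNorm (K := K) (L := AlgebraicClosure K))
  let j : AlgebraicClosure K →+* UniformSpace.Completion (AlgebraicClosure K) :=
    algebraMap (AlgebraicClosure K) (UniformSpace.Completion (AlgebraicClosure K))
  have hj : ∀ x, ‖j x‖ = ‖x‖ := fun x => UniformSpace.Completion.norm_coe x
  let iC : NontriviallyNormedField (UniformSpace.Completion (AlgebraicClosure K)) :=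
    { (inferInstance : NormedField (UniformSpace.Completion (AlgebraicClosure K))) with
      non_trivial := by
        obtain ⟨x, hx⟩ := NontriviallyNormedField.non_trivial (α := K)
        exact ⟨j (algebraMap K _ x), by rw [hj, hLn]; exact hx⟩ }
  have iCu : IsUltrametricDist (UniformSpace.Completion (AlgebraicClosure K)) := by
    apply IsUltrametricDist.isUltrametricDist_of_forall_norm_add_le_max_norm
    intro x y
    refine UniformSpace.Completion.induction_on₂ x y ?_ ?_
    · exact isClosed_le (continuous_fst.add continuous_snd).norm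
        (continuous_fst.norm.max continuous_snd.norm)
    · intro a b
      rw [← UniformSpace.Completion.coe_add, UniformSpace.Completion.norm_coe,
        UniformSpace.Completion.norm_coe, UniformSpace.Completion.norm_coe]
      exact IsUltrametricDist.norm_add_le_max a b
  have h0 : CharZero (UniformSpace.Completion (AlgebraicClosure K)) :=
    charZero_of_injective_ringHom (j.comp (algebraMap K _)).injective
  have h1 : IsAlgClosed (UniformSpace.Completion (AlgebraicClosure K)) :=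
    IsAlgClosed.of_denseRange (K := AlgebraicClosure K) UniformSpace.Completion.denseRange_coe
  exact ⟨UniformSpace.Completion (AlgebraicClosure K), iC, iCu, inferInstance, h1,
    j.comp (algebraMap K _), fun x => by rw [RingHom.comp_apply, hj, hLn]⟩

theorem exc_proof : Stmt_Exc := by
  intro p _ K _ _ O _ _ hr
  have hp : PU (p : O) := pu_p (Fact.out : p.Prime).ne_zero
  let iK : NontriviallyNormedField K := nnfPU (F := K) hp
  have iKu : IsUltrametricDist K := ultra_nfPU hp
  have iKc : CompleteSpace K := complete_nfPU hp (complete_p hp)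
  have hKn : ∀ x : K, ‖x‖ = vn K (p : O) x := fun x => rfl
  obtain ⟨C, _, _, _, h1, ι, hι⟩ := exists_C K
  have hpn : ‖(p : C)‖ = 1 / 2 := by
    have h2 : ι (algebraMap O K (p : O)) = p := by rw [map_natCast, map_natCast]
    rw [← h2, hι, hKn, vn_self hp]
  have h2 : 0 < ‖(p : C)‖ := by rw [hpn]; norm_num
  have h3 : ‖(p : C)‖ < 1 := by rw [hpn]; norm_num
  refine ⟨C, inferInstance, h1, ι, ub C, ⟨?_, ?_⟩, ⟨not_unit_ub h3⟩, complete_ub h2 h3,
    rank_one_ub h2⟩
  · ext x
    rw [ValuationSubring.mem_comap, mem_ub, hι, hKn, vn_le_one_iff hp hr]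
  · intro x hx
    obtain ⟨n, hn⟩ := exists_pow_lt_of_lt_one (norm_pos_iff.2 hx) h3
    have hp0 : (p : K) ≠ 0 := Nat.cast_ne_zero.2 (Fact.out : p.Prime).ne_zero
    refine ⟨(p : K) ^ n, pow_ne_zero _ hp0, ?_⟩
    rw [mem_ub, norm_div, map_pow, map_natCast, norm_pow]
    exact div_le_one_of_le₀ hn.le (norm_nonneg _)

end Pool.Agent.GFR
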